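import Pool.Agent.Lib.MP_e8e643_al.Val

/-! A valuation of residue characteristic `p` on the rational function field in two variables. -/

namespace Pool.Agent.Lib.MP_e8e643_al

open Module MvPolynomial

/-- the data of the valuation that is used -/
structure Setup (p : ℕ) {F : Type*} [Field F] (Γ : Type*) [LinearOrderedCommGroupWithZero Γ]
    (ζ α β : F) where
  v : Valuation F Γ
  x : Γ
  y : Γ
  x0 : x ≠ 0
  y0 : y ≠ 0
  x1 : x < 1
  y1 : y < 1
  hα : v α = x ^ p
  hβ : v β = y ^ p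
  dist : ∀ (c d : F) (i j k l : ℕ), c ≠ 0 → d ≠ 0 → v c * (x ^ i * y ^ j) = v d * (x ^ k * y ^ l) →
    (i : ZMod p) = k ∧ (j : ZMod p) = l
  sp : ∀ i j : ℕ, v p < x ^ i * y ^ j
  sz : ∀ i j : ℕ, v (ζ - 1) < x ^ i * y ^ j

theorem exists_ext (Γ₀ : Type*) [LinearOrderedCommGroupWithZero Γ₀] :
    ∃ (f : Γ₀ →*₀o WithZero (Γ₀ˣ ×ₗ (WithZero (Multiplicative (ℤ ×ₗ ℤ)))ˣ))
      (x y : WithZero (Γ₀ˣ ×ₗ (WithZero (Multiplicative (ℤ ×ₗ ℤ)))ˣ)),
      x ≠ 0 ∧ y ≠ 0 ∧ x < 1 ∧ y < 1 ∧ (∀ γ < 1, ∀ i j : ℕ, f γ < x ^ i * y ^ j) ∧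
      ∀ γ δ (i j k l : ℕ), γ ≠ 0 → δ ≠ 0 → f γ * (x ^ i * y ^ j) = f δ * (x ^ k * y ^ l) →
        i = k ∧ j = l := by
  let R := LinearOrderedCommGroupWithZero.inr Γ₀ (WithZero (Multiplicative (ℤ ×ₗ ℤ)))
  let L := LinearOrderedCommGroupWithZero.inl Γ₀ (WithZero (Multiplicative (ℤ ×ₗ ℤ)))
  have hR : ∀ u : ℤ ×ₗ ℤ, u < 0 → R (WithZero.exp u) < 1 := by
    intro u hu
    have h2 := LinearOrderedCommGroupWithZero.inl_mul_inr_eq_coe_toLex (α := Γ₀) one_ne_zero
      (WithZero.exp_ne_zero (a := u))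
    rw [map_one, one_mul] at h2
    rw [h2, ← WithZero.coe_one, WithZero.coe_lt_coe]
    refine Prod.Lex.toLex_lt_toLex.2 (Or.inr ⟨Units.ext rfl, ?_⟩)
    rw [← Units.val_lt_val]
    exact WithZero.exp_lt_exp.2 hu
  have hpow : ∀ i j : ℕ, R (WithZero.exp (toLex (-1, 0))) ^ i * R (WithZero.exp (toLex (0, -1))) ^ j
      = R (WithZero.exp (toLex (-(i : ℤ), -(j : ℤ)))) := by
    intro i j
    rw [← map_pow, ← map_pow, ← map_mul, ← WithZero.exp_nsmul, ← WithZero.exp_nsmul,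
      ← WithZero.exp_add]
    congr 2
    change toLex (i • ((-1 : ℤ), (0 : ℤ)) + j • ((0 : ℤ), (-1 : ℤ))) = _
    simp
  refine ⟨L, R (WithZero.exp (toLex (-1, 0))), R (WithZero.exp (toLex (0, -1))),
    (map_ne_zero R).2 WithZero.exp_ne_zero, (map_ne_zero R).2 WithZero.exp_ne_zero, ?_, ?_, ?_, ?_⟩
  · exact hR _ (Prod.Lex.toLex_lt_toLex.2 (Or.inl (by norm_num)))
  · exact hR _ (Prod.Lex.toLex_lt_toLex.2 (Or.inr ⟨rfl, by norm_num⟩))
  · intro γ hγ i j
    rw [hpow]
    by_cases h0 : γ = 0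
    · rw [h0, map_zero]
      exact zero_lt_iff.2 ((map_ne_zero R).2 WithZero.exp_ne_zero)
    · have h1 := LinearOrderedCommGroupWithZero.inl_mul_inr_eq_coe_toLex
        (β := WithZero (Multiplicative (ℤ ×ₗ ℤ))) h0 one_ne_zero
      have h2 := LinearOrderedCommGroupWithZero.inl_mul_inr_eq_coe_toLex (α := Γ₀) one_ne_zero
        (WithZero.exp_ne_zero (a := toLex (-(i : ℤ), -(j : ℤ))))
      rw [map_one, mul_one] at h1
      rw [map_one, one_mul] at h2
      rw [h1, h2, WithZero.coe_lt_coe]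
      exact Prod.Lex.toLex_lt_toLex.2 (Or.inl (by simpa [← Units.val_lt_val] using hγ))
  · intro γ δ i j k l hγ hδ h
    rw [hpow, hpow, LinearOrderedCommGroupWithZero.inl_mul_inr_eq_coe_toLex hγ WithZero.exp_ne_zero,
      LinearOrderedCommGroupWithZero.inl_mul_inr_eq_coe_toLex hδ WithZero.exp_ne_zero] at h
    have h2 := congrArg Units.val (Prod.ext_iff.1 (toLex.injective (WithZero.coe_injective h))).2
    have h3 := Prod.ext_iff.1 (toLex.injective (WithZero.exp_injective h2))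
    simp only [neg_inj, Nat.cast_inj] at h3
    exact h3

theorem exists_sub (K : Type*) [Field K] [CharZero K] {p : ℕ} (hp : p.Prime) {ζ : K}
    (hζ : ζ ^ p = 1) :
    ∃ O : ValuationSubring K, O.valuation p < 1 ∧ O.valuation (ζ - 1) < 1 := by
  have hI : Ideal.span {(p : (⊥ : Subring K))} ≠ ⊤ := by
    rw [Ne, Ideal.span_singleton_eq_top, isUnit_iff_exists_inv]
    rintro ⟨⟨c, hc⟩, h⟩
    obtain ⟨n, rfl⟩ := Subring.mem_bot.1 hc
    have h1 : ((p : ℤ) * n : ℤ) = (1 : ℤ) := by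
      have := congrArg Subtype.val h
      simp only [Subring.coe_mul, Subring.coe_natCast, Subring.coe_one] at this
      exact_mod_cast this
    have := Int.eq_one_of_mul_eq_one_right (by positivity) h1
    have := hp.one_lt
    omega
  obtain ⟨O, -, hO⟩ := Ideal.image_subset_nonunits_valuationSubring _ hI
  have h1 : O.valuation p < 1 :=
    (O.mem_nonunits_iff).1 (hO ⟨_, Ideal.subset_span rfl, by simp⟩)
  refine ⟨O, h1, ?_⟩
  have hz : O.valuation ζ = 1 := by
    have := congrArg O.valuation hζ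
    rw [map_pow, map_one] at this
    exact (pow_eq_one_iff_left hp.ne_zero).1 this
  have hm : ζ - 1 ∈ O := O.sub_mem ((O.valuation_le_one_iff ζ).1 hz.le) O.one_mem
  obtain ⟨r, hr⟩ := exists_add_pow_prime_eq hp (⟨ζ - 1, hm⟩ : O) 1
  have h2 : (ζ - 1) ^ p = -(p * (ζ - 1) * r) := by
    have := congrArg Subtype.val hr
    push_cast at this
    rw [sub_add_cancel, hζ] at this
    linear_combination -this
  have h3 : O.valuation (ζ - 1) ^ p < 1 := by
    rw [← map_pow, h2, Valuation.map_neg, map_mul, map_mul]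
    calc _ ≤ O.valuation p * 1 * 1 :=
          mul_le_mul' (mul_le_mul' le_rfl ((O.valuation_le_one_iff _).2 hm)) (O.valuation_le_one r)
      _ < 1 := by simpa using h1
  exact lt_of_not_ge fun h => not_lt.2 (one_le_pow₀ h) h3

theorem exists_setup (K : Type*) [Field K] [CharZero K] {p : ℕ} (hp : p.Prime) {ζ : K}
    (hζ : ζ ^ p = 1) (F : Type*) [Field F] [Algebra (MvPolynomial (Fin 2) K) F]
    [IsFractionRing (MvPolynomial (Fin 2) K) F] :
    ∃ O : ValuationSubring K,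
      Nonempty (Setup p (WithZero (O.ValueGroupˣ ×ₗ (WithZero (Multiplicative (ℤ ×ₗ ℤ)))ˣ))
        (algebraMap (MvPolynomial (Fin 2) K) F (C ζ)) (algebraMap (MvPolynomial (Fin 2) K) F (X 0))
        (algebraMap (MvPolynomial (Fin 2) K) F (X 1))) := by
  obtain ⟨O, hO, hO'⟩ := exists_sub K hp hζ
  obtain ⟨f, x, y, x0, y0, x1, y1, hs, hi⟩ := exists_ext O.ValueGroup
  let v₀ := O.valuation.map f.toMonoidWithZeroHom f.monotone'
  let g : (Fin 2 →₀ ℕ) → _ := fun m => x ^ (p * m 0) * y ^ (p * m 1)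
  let b := basisMonomials (Fin 2) K
  have hd : Dist v₀ g := by
    refine ⟨fun m => mul_ne_zero (pow_ne_zero _ x0) (pow_ne_zero _ y0), fun m n c d hc hd h => ?_⟩
    obtain ⟨h1, h2⟩ := hi _ _ _ _ _ _ ((Valuation.ne_zero_iff _).2 hc)
      ((Valuation.ne_zero_iff _).2 hd) h
    ext i
    fin_cases i
    · exact Nat.eq_of_mul_eq_mul_left hp.pos h1
    · exact Nat.eq_of_mul_eq_mul_left hp.pos h2
  have hb : ∀ m, b m = monomial m 1 := fun m => by simp [b]
  have h1 : nrm v₀ b g 1 = 1 := by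
    have := nrm_basis v₀ b g 0
    simpa [hb, g] using this
  have hm : ∀ m z, nrm v₀ b g (b m * z) = g m * nrm v₀ b g z := fun m =>
    hd.op b (LinearMap.mulLeft K (b m)) (hd.1 m) fun n => by
      rw [LinearMap.mulLeft_apply, hb, hb, monomial_mul, one_mul, ← hb, nrm_basis]
      simp only [g, Finsupp.add_apply, mul_add, pow_add]
      ac_rfl
  let w := hd.val b h1 hm
  have hw : ∀ z, w z = nrm v₀ b g z := fun _ => rfl
  have hS : nonZeroDivisors (MvPolynomial (Fin 2) K) ≤ w.supp.primeCompl := fun z hz =>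
    hd.nrm_ne b (nonZeroDivisors.ne_zero hz)
  have hC : ∀ c : K, w (C c) = f (O.valuation c) := fun c => by
    rw [hw, ← mul_one (C c), ← smul_eq_C_mul, nrm_smul, h1, mul_one]
    rfl
  have hX : ∀ i, w (X i) = g (Finsupp.single i 1) := fun i => by
    rw [hw, ← nrm_basis v₀ b g, hb]
    rfl
  have hval : ∀ c : F, c ≠ 0 → ∃ (γ δ : O.ValueGroup) (m n : Fin 2 →₀ ℕ), γ ≠ 0 ∧ δ ≠ 0 ∧
      w.extendToLocalization hS F c * (f δ * g n) = f γ * g m := by
    intro c hc
    obtain ⟨a, s, hs, rfl⟩ := IsFractionRing.div_surjective (MvPolynomial (Fin 2) K) c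
    have ha : a ≠ 0 := by rintro rfl; simp at hc
    obtain ⟨m, hm, em⟩ := exists_nrm v₀ b g ha
    obtain ⟨n, hn, en⟩ := exists_nrm v₀ b g (nonZeroDivisors.ne_zero hs)
    refine ⟨_, _, m, n, (Valuation.ne_zero_iff O.valuation).2 hm,
      (Valuation.ne_zero_iff O.valuation).2 hn, ?_⟩
    rw [map_div₀, Valuation.extendToLocalization_apply_map_apply,
      Valuation.extendToLocalization_apply_map_apply, hw, hw]
    exact (congrArg _ en.symm).trans ((div_mul_cancel₀ _
      (hd.nrm_ne b (nonZeroDivisors.ne_zero hs))).trans em)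
  refine ⟨O, ⟨⟨w.extendToLocalization hS F, x, y, x0, y0, x1, y1, ?_, ?_, ?_, ?_, ?_⟩⟩⟩
  · rw [Valuation.extendToLocalization_apply_map_apply, hX]
    simp [g]
  · rw [Valuation.extendToLocalization_apply_map_apply, hX]
    simp [g]
  · intro c d i j k l hc hd h
    obtain ⟨γ, δ, m, n, hγ, hδ, e⟩ := hval c hc
    obtain ⟨γ', δ', m', n', hγ', hδ', e'⟩ := hval d hd
    have key : f (γ * δ') * (x ^ (p * m 0 + p * n' 0 + i) * y ^ (p * m 1 + p * n' 1 + j)) =
        f (γ' * δ) * (x ^ (p * m' 0 + p * n 0 + k) * y ^ (p * m' 1 + p * n 1 + l)) := by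
      calc _ = (f γ * g m) * (f δ' * g n') * (x ^ i * y ^ j) := by
            simp only [g, map_mul, pow_add]; ac_rfl
        _ = (w.extendToLocalization hS F c * (x ^ i * y ^ j)) * (f δ * g n) * (f δ' * g n') := by
            rw [← e]; ac_rfl
        _ = (f γ' * g m') * (f δ * g n) * (x ^ k * y ^ l) := by
            rw [h, ← e']; ac_rfl
        _ = _ := by simp only [g, map_mul, pow_add]; ac_rfl
    obtain ⟨h1, h2⟩ := hi _ _ _ _ _ _ (mul_ne_zero hγ hδ') (mul_ne_zero hγ' hδ) key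
    have h1' := congrArg (Nat.cast : ℕ → ZMod p) h1
    have h2' := congrArg (Nat.cast : ℕ → ZMod p) h2
    simpa using And.intro h1' h2'
  · intro i j
    rw [← map_natCast (algebraMap (MvPolynomial (Fin 2) K) F),
      Valuation.extendToLocalization_apply_map_apply, ← map_natCast (C : K →+* _), hC]
    exact hs _ hO i j
  · intro i j
    rw [← map_one (algebraMap (MvPolynomial (Fin 2) K) F), ← map_sub,
      Valuation.extendToLocalization_apply_map_apply, ← C_1, ← map_sub, hC]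
    exact hs _ hO' i j

end Pool.Agent.Lib.MP_e8e643_al
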