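import Pool.Agent.Lib.MP_e8e643_al.Sym

/-! Traces in symbol algebras, and the subfield that belongs to a splitting field. -/

namespace Pool.Agent.Lib.MP_e8e643_al

open Module TensorProduct

universe u

variable {F : Type u} [Field F]

/-- trace of the right multiplication -/
noncomputable def tr (F : Type u) [Field F] (A : Type u) [Ring A] [Algebra F A] : A →ₗ[F] F :=
  (LinearMap.trace F A).comp (LinearMap.mul F A).flip

variable {A : Type u} [Ring A] [Algebra F A]

theorem tr_apply (x : A) : tr F A x = LinearMap.trace F A (LinearMap.mulRight F x) := rfl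

theorem tr_comm (x y : A) : tr F A (x * y) = tr F A (y * x) := by
  rw [tr_apply, tr_apply, LinearMap.mulRight_mul, LinearMap.mulRight_mul]
  exact LinearMap.trace_mul_comm F _ _

theorem tr_zero {p : ℕ} (hp : p ≠ 0) {u x : A} {c η θ : F} (hu : u ^ p = algebraMap F A c)
    (hc : c ≠ 0) (h : η • (u * x) = θ • (x * u)) (hη : η ≠ θ) : tr F A x = 0 := by
  obtain ⟨q, rfl⟩ := Nat.exists_eq_succ_of_ne_zero hp
  have h1 : tr F A (x * u * u ^ q) = c * tr F A x := by
    rw [mul_assoc, ← pow_succ', hu, ← Algebra.commutes, ← Algebra.smul_def, map_smul, smul_eq_mul]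
  have h2 : tr F A (u * x * u ^ q) = c * tr F A x := by
    rw [mul_assoc, tr_comm, mul_assoc, ← pow_succ, pow_succ', ← mul_assoc, h1]
  have h3 := congrArg (fun z => tr F A (z * u ^ q)) h
  simp only [smul_mul_assoc, map_smul, h1, h2, smul_eq_mul] at h3
  by_contra h0
  exact hη (mul_right_cancel₀ (mul_ne_zero hc h0) h3)

namespace Sym

variable {p : ℕ} {ζ ε a b : F} (S : Sym p ζ ε a b A)

/-- the first generator -/
def I : A := S.E + algebraMap F A ε

theorem J_I (r : ℕ) : S.J * S.I ^ r = ζ ^ r • (S.I ^ r * S.J) := by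
  induction r with
  | zero => simp
  | succ r ih =>
    rw [pow_succ, ← mul_assoc, ih, smul_mul_assoc, mul_assoc, I, S.hJI, mul_smul_comm, smul_smul,
      pow_succ, mul_assoc]

theorem J_I' (s : ℕ) : S.J ^ s * S.I = ζ ^ s • (S.I * S.J ^ s) := by
  induction s with
  | zero => simp
  | succ r ih =>
    rw [pow_succ', mul_assoc, ih, mul_smul_comm, ← mul_assoc, I, S.hJI, smul_mul_assoc, smul_smul,
      pow_succ, mul_assoc]

theorem ind (f : A →ₗ[F] F) (hf : ∀ k, 0 < k → k < p → f (S.I ^ k) = 0) (r : ℕ) :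
    ∀ k, k + r < p → f (S.I ^ k * S.E ^ r) = (-ε) ^ r * f (S.I ^ k) := by
  induction r with
  | zero => simp
  | succ r ih =>
    intro k hk
    have e : S.I ^ k * S.E ^ (r + 1) = S.I ^ (k + 1) * S.E ^ r - ε • (S.I ^ k * S.E ^ r) := by
      rw [pow_succ S.I, mul_assoc, I, add_mul, mul_add, ← Algebra.smul_def, mul_smul_comm,
        add_sub_cancel_right, pow_succ']
    rw [e, map_sub, map_smul, ih _ (by omega), ih _ (by omega), hf _ (by omega) (by omega),
      smul_eq_mul]
    ring

include S in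
theorem finrank_eq : finrank F A = p ^ 2 := by
  rw [finrank_eq_card_basis S.bas]
  simp [sq]

include S in
theorem tr_one : tr F A 1 = (p : F) ^ 2 := by
  have := Module.Finite.of_basis S.bas
  rw [tr_apply, LinearMap.mulRight_one, LinearMap.trace_id, S.finrank_eq, Nat.cast_pow]

theorem tr_central (hζ : IsPrimitiveRoot ζ p) (ha : a ≠ 0) (hb : b ≠ 0) {x : A}
    (hx : ∀ y, y * x = x * y) (k : Fin p × Fin p) :
    tr F A (x * S.bas k) = if (k.2 : ℕ) = 0 then (-ε) ^ (k.1 : ℕ) * tr F A x else 0 := by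
  have hp : p ≠ 0 := k.1.pos.ne'
  rw [S.hbas]
  split_ifs with h
  · have := S.ind ((tr F A).comp (LinearMap.mulLeft F x)) (fun r h0 hr => tr_zero hp S.hJ hb
      (η := 1) (θ := ζ ^ r) (x := x * S.I ^ r) (by
        rw [one_smul, ← mul_assoc, hx, mul_assoc, J_I, mul_smul_comm, mul_assoc])
      (hζ.pow_ne_one_of_pos_of_lt h0.ne' hr).symm) k.1 0 (by simp)
    simpa [h] using this
  · refine tr_zero hp S.hI ha (η := ζ ^ (k.2 : ℕ)) (θ := 1) ?_
      (hζ.pow_ne_one_of_pos_of_lt h k.2.2)
    have hc : Commute (S.E ^ (k.1 : ℕ)) S.I :=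
      ((Commute.refl S.E).add_right (Algebra.commutes _ _).symm).pow_left _
    change _ • (S.I * _) = _ • (_ * S.I)
    rw [one_smul, mul_assoc, mul_assoc, J_I', mul_smul_comm, mul_smul_comm, ← mul_assoc _ S.I,
      hc.eq, ← mul_assoc S.I x, hx, mul_assoc, mul_assoc]

theorem tr_eq (hζ : IsPrimitiveRoot ζ p) (ha : a ≠ 0) (hb : b ≠ 0) [NeZero p] (y : A) :
    tr F A y = (p : F) ^ 2 * ∑ r : Fin p, (-ε) ^ (r : ℕ) * S.bas.repr y (r, 0) := by
  conv_lhs => rw [← S.bas.sum_repr y, map_sum, Fintype.sum_prod_type]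
  rw [Finset.mul_sum]
  refine Finset.sum_congr rfl fun r _ => ?_
  have h := fun k => S.tr_central hζ ha hb (x := 1) (by simp) k
  simp only [one_mul, S.tr_one] at h
  rw [Finset.sum_eq_single 0]
  · rw [map_smul, h, if_pos (by simp), smul_eq_mul]
    ring
  · intro s _ hs
    rw [map_smul, h, if_neg (by simpa using hs), smul_zero]
  · simp

include S in
theorem isCentral (hζ : IsPrimitiveRoot ζ p) (ha : a ≠ 0) (hb : b ≠ 0) (hp : (p : F) ≠ 0)
    [IsDomain A] : Algebra.IsCentral F A := by
  have := Module.Finite.of_basis S.bas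
  refine ⟨fun x hx => ?_⟩
  let x' := x - algebraMap F A (tr F A x / (p : F) ^ 2)
  have h1 : ∀ y, y * x' = x' * y := fun y => by
    rw [mul_sub, sub_mul, Subalgebra.mem_center_iff.1 hx y, Algebra.commutes]
  have h2 : tr F A x' = 0 := by
    rw [map_sub, Algebra.algebraMap_eq_smul_one, map_smul, S.tr_one, smul_eq_mul,
      div_mul_cancel₀ _ (pow_ne_zero _ hp), sub_self]
  have h3 : (tr F A).comp (LinearMap.mulLeft F x') = 0 := S.bas.ext fun k => by
    simp [S.tr_central hζ ha hb h1 k, h2]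
  have h4 : x' = 0 := by
    by_contra h0
    obtain ⟨y, hy⟩ := FiniteDimensional.exists_mul_eq_one F h0
    have := LinearMap.congr_fun h3 y
    rw [LinearMap.comp_apply, LinearMap.mulLeft_apply, hy, S.tr_one] at this
    exact pow_ne_zero _ hp this
  exact Algebra.mem_bot.2 ⟨_, (sub_eq_zero.1 h4).symm⟩

end Sym

/-- a splitting field of degree dividing `p` of a division algebra of degree `p` embeds in it -/
theorem emb {p : ℕ} (hp : p.Prime) [IsDomain A] (hA : finrank F A = p ^ 2) (L : Type*) [Field L]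
    [Algebra F L] (hL : finrank F L ∣ p) {n : ℕ}
    (e : L ⊗[F] A ≃ₐ[L] Matrix (Fin n) (Fin n) L) :
    finrank F L = p ∧ ∃ φ : L →ₐ[F] A, ∀ l, tr F A (φ l) = LinearMap.trace F (Fin p → L)
      ((LinearMap.lsmul L (Fin p → L) l).restrictScalars F) := by
  have : FiniteDimensional F A := .of_finrank_pos (by rw [hA]; exact pow_pos hp.pos _)
  have : FiniteDimensional F L := .of_finrank_pos (Nat.pos_of_dvd_of_pos hL hp.pos)
  obtain rfl : n = p := by
    have := e.toLinearEquiv.finrank_eq
    rw [finrank_baseChange, hA, finrank_matrix] at this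
    simp only [Fintype.card_fin, finrank_self, mul_one, ← sq] at this
    exact (pow_left_injective two_ne_zero this).symm
  let ρ : A →ₐ[F] Matrix (Fin n) (Fin n) L :=
    (e.toAlgHom.restrictScalars F).comp Algebra.TensorProduct.includeRight
  let w : Fin n → L := fun _ => 1
  let θ : A →ₗ[F] (Fin n → L) :=
    { toFun := fun x => (ρ x).mulVec w
      map_add' := fun x y => by rw [map_add, Matrix.add_mulVec]
      map_smul' := fun c x => by rw [map_smul, Matrix.smul_mulVec, RingHom.id_apply] }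
  have hθ : ∀ x y, θ (x * y) = (ρ x).mulVec (θ y) := fun x y => by
    change (ρ (x * y)).mulVec w = (ρ x).mulVec ((ρ y).mulVec w)
    rw [map_mul, Matrix.mulVec_mulVec]
  have hθ1 : θ 1 = w := by
    change (ρ 1).mulVec w = w
    rw [map_one, Matrix.one_mulVec]
  have hinj : Function.Injective θ := by
    refine (injective_iff_map_eq_zero _).2 fun x hx => by_contra fun h0 => ?_
    obtain ⟨y, hy⟩ := (FiniteDimensional.isUnit F h0).exists_left_inv
    have := hθ y x
    rw [hy, hθ1, hx, Matrix.mulVec_zero] at this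
    exact one_ne_zero (congrFun this ⟨0, hp.pos⟩)
  have hV : finrank F (Fin n → L) = n * finrank F L := by simp [finrank_pi_fintype]
  have hLn : finrank F L = n := by
    have := LinearMap.finrank_le_finrank_of_injective hinj
    rw [hA, hV, sq] at this
    exact le_antisymm (Nat.le_of_dvd hp.pos hL) (Nat.le_of_mul_le_mul_left this hp.pos)
  let θ' := θ.linearEquivOfInjective hinj (by rw [hA, hV, hLn, sq])
  let φ₀ : L →ₗ[F] A := θ'.symm.toLinearMap.comp
    ((LinearMap.toSpanSingleton L _ w).restrictScalars F)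
  have hφ : ∀ l, θ (φ₀ l) = l • w := fun l => θ'.apply_symm_apply _
  have hφ' : ∀ x l, θ (x * φ₀ l) = l • θ x := fun x l => by
    rw [hθ, hφ, Matrix.mulVec_smul]
    rfl
  refine ⟨hLn, AlgHom.ofLinearMap φ₀ (hinj (by rw [hφ, one_smul, hθ1])) (fun l l' => hinj (by
    rw [hφ', hφ, hφ, smul_smul, mul_comm])), fun l => ?_⟩
  rw [tr_apply, ← LinearMap.trace_conj' _ θ']
  congr 1
  refine LinearMap.ext fun z => ?_
  obtain ⟨x, rfl⟩ := θ'.surjective z
  rw [LinearEquiv.conj_apply_apply, θ'.symm_apply_apply]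
  exact hφ' x l

end Pool.Agent.Lib.MP_e8e643_al
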