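import Pool.Agent.Lib.MP_e8e643_al.Base
import Pool.Agent.Lib.MP_e8e643_al.Tr

/-! Valuations on the symbol algebras and the depth of the trace. -/

namespace Pool.Agent.Lib.MP_e8e643_al

open Module TensorProduct

universe u

variable {F : Type u} [Field F] {Γ : Type*} [LinearOrderedCommGroupWithZero Γ]

theorem val_nat (v : Valuation F Γ) (n : ℕ) : v n ≤ 1 := by
  induction n with
  | zero => simp
  | succ n ih => rw [Nat.cast_succ]; exact v.map_add_le ih (by simp)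

namespace Sym

variable {A : Type u} [Ring A] [Algebra F A] {p : ℕ} {ζ ε a b : F} (S : Sym p ζ ε a b A)

theorem exists_val (hp : p.Prime) (v : Valuation F Γ) {e j : Γ} {m : F} (ha : a = ε ^ p + m)
    (hd : Dist v fun k : Fin p × Fin p => e ^ (k.1 : ℕ) * j ^ (k.2 : ℕ)) (he0 : e ≠ 0) (hj0 : j ≠ 0)
    (hm : v m = e ^ p) (hb : v b = j ^ p) (hε : v ε ≤ 1) (he : e < 1) (hpe : v p < e ^ p)
    (hζ : v (ζ - 1) < e) : ∃ w : Valuation A Γ,
      ∀ x, w x = nrm v S.bas (fun k : Fin p × Fin p => e ^ (k.1 : ℕ) * j ^ (k.2 : ℕ)) x := by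
  set g : Fin p × Fin p → Γ := fun k => e ^ (k.1 : ℕ) * j ^ (k.2 : ℕ)
  have hg : ∀ k, g k = e ^ (k.1 : ℕ) * j ^ (k.2 : ℕ) := fun _ => rfl
  have hB : ∀ r s : ℕ, r < p → s < p → nrm v S.bas g (S.E ^ r * S.J ^ s) = e ^ r * j ^ s :=
    fun r s hr hs => by
      have := nrm_basis v S.bas g (⟨r, hr⟩, ⟨s, hs⟩)
      rwa [S.hbas] at this
  have h1 : nrm v S.bas g 1 = 1 := by simpa using hB 0 0 hp.pos hp.pos
  have hE : ∀ x, nrm v S.bas g (S.E * x) = e * nrm v S.bas g x := by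
    refine hd.op S.bas (LinearMap.mulLeft F S.E) he0 fun k => ?_
    rw [LinearMap.mulLeft_apply, S.hbas, ← mul_assoc, ← pow_succ', hg k, ← mul_assoc, ← pow_succ']
    rcases (Nat.succ_le_of_lt k.1.2).lt_or_eq with h | h
    · exact hB _ _ h k.2.2
    change (k.1 : ℕ) + 1 = p at h
    have h2 := S.hI
    have hc : Commute S.E (algebraMap F A ε) := (Algebra.commutes _ _).symm
    rw [hc.add_pow, Finset.sum_range_succ, congrArg Finset.range h.symm, Finset.sum_range_succ',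
      congrArg (algebraMap F A) ha] at h2
    simp only [pow_zero, one_mul, Nat.sub_zero, Nat.choose_zero_right, Nat.cast_one, mul_one,
      Nat.sub_self, Nat.choose_self, map_add, map_pow] at h2
    have h3 : S.E ^ p * S.J ^ (k.2 : ℕ) = m • (S.E ^ 0 * S.J ^ (k.2 : ℕ)) +
        ∑ i ∈ Finset.range k.1, (-(ε ^ (p - (i + 1)) * (p.choose (i + 1) : F))) •
          (S.E ^ (i + 1) * S.J ^ (k.2 : ℕ)) := by
      rw [add_right_comm, add_comm (algebraMap F A ε ^ p), add_left_inj, ← eq_sub_iff_add_eq'] at h2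
      rw [h2, sub_mul, Finset.sum_mul, sub_eq_add_neg, ← Finset.sum_neg_distrib, pow_zero, one_mul,
        Algebra.smul_def]
      congr 1
      refine Finset.sum_congr rfl fun i _ => ?_
      rw [neg_smul, ← smul_mul_assoc, Algebra.smul_def, Algebra.commutes, map_mul, map_pow,
        map_natCast, mul_assoc (S.E ^ (i + 1))]
    have h4 : nrm v S.bas g (m • (S.E ^ 0 * S.J ^ (k.2 : ℕ))) = e ^ p * j ^ (k.2 : ℕ) := by
      rw [nrm_smul, hB _ _ hp.pos k.2.2, hm, pow_zero, one_mul]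
    rw [h, h3, nrm_add_of_lt, h4]
    rw [h4]
    refine nrm_sum_lt _ _ _ _ _ (mul_ne_zero (pow_ne_zero _ he0) (pow_ne_zero _ hj0))
      fun i hi => ?_
    have hi' : i + 1 < p := by have := Finset.mem_range.1 hi; omega
    obtain ⟨c, hc⟩ := hp.dvd_choose_self (Nat.succ_ne_zero i) hi'
    rw [nrm_smul, hB _ _ hi' k.2.2, ← mul_assoc, Valuation.map_neg, hc, Nat.cast_mul, map_mul,
      map_mul, map_pow]
    refine mul_lt_mul_of_pos_right (lt_of_le_of_lt ?_ hpe) (zero_lt_iff.2 (pow_ne_zero _ hj0))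
    calc _ ≤ 1 * (v p * 1) * 1 := mul_le_mul' (mul_le_mul' (pow_le_one₀ zero_le hε)
          (mul_le_mul' le_rfl (val_nat v c))) (pow_le_one₀ zero_le he.le)
      _ = _ := by simp
  have hz : v ζ = 1 := by simpa using v.map_one_add_of_lt (hζ.trans he)
  let T : A := ζ • S.E + algebraMap F A ((ζ - 1) * ε)
  have hT : ∀ x, nrm v S.bas g (T * x) = e * nrm v S.bas g x := by
    intro x
    by_cases hx : x = 0
    · simp [hx, nrm_zero]
    have h2 : nrm v S.bas g (ζ • (S.E * x)) = e * nrm v S.bas g x := by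
      rw [nrm_smul, hE, hz, one_mul]
    rw [add_mul, smul_mul_assoc, ← Algebra.smul_def, nrm_add_of_lt, h2]
    rw [h2, nrm_smul, map_mul]
    refine mul_lt_mul_of_pos_right (lt_of_le_of_lt ?_ hζ) (zero_lt_iff.2 (hd.nrm_ne _ hx))
    simpa using mul_le_mul' (le_refl (v (ζ - 1))) hε
  have hJT : S.J * S.E = T * S.J := by
    have := S.hJI
    rw [mul_add, add_mul, ← Algebra.commutes, ← Algebra.smul_def, ← eq_sub_iff_add_eq] at this
    rw [this, add_mul, smul_mul_assoc, ← Algebra.smul_def]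
    module
  have hpow : ∀ (t : A) (τ : Γ), (∀ x, nrm v S.bas g (t * x) = τ * nrm v S.bas g x) →
      ∀ (r : ℕ) x, nrm v S.bas g (t ^ r * x) = τ ^ r * nrm v S.bas g x := by
    intro t τ ht r x
    induction r with
    | zero => simp
    | succ r ih => rw [pow_succ', mul_assoc, ht, ih, pow_succ', mul_assoc]
  have hJ : ∀ x, nrm v S.bas g (S.J * x) = j * nrm v S.bas g x := by
    refine hd.op S.bas (LinearMap.mulLeft F S.J) hj0 fun k => ?_
    rw [LinearMap.mulLeft_apply, S.hbas, ← mul_assoc, (SemiconjBy.pow_right hJT _).eq, mul_assoc,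
      hpow T e hT, ← pow_succ', hg k, mul_left_comm, ← pow_succ']
    congr 1
    rcases (Nat.succ_le_of_lt k.2.2).lt_or_eq with h | h
    · simpa using hB 0 _ hp.pos h
    · change (k.2 : ℕ) + 1 = p at h
      rw [h, S.hJ, Algebra.algebraMap_eq_smul_one, nrm_smul, h1, hb, mul_one]
  exact ⟨hd.val S.bas h1 fun k y => by
    rw [S.hbas, mul_assoc, hpow _ e hE, hpow _ j hJ, ← mul_assoc], fun _ => rfl⟩

end Sym

/-- an element whose value has order `p` modulo the values of `F` has the same value in all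
valuations of a degree `p` extension -/
theorem val_unique {p : ℕ} (v : Valuation F Γ) {L : Type*} [Field L] [Algebra F L]
    [FiniteDimensional F L] (hL : finrank F L = p) (w w' : Valuation L Γ)
    (hw : ∀ (c : F) x, w (c • x) = v c * w x) (hw' : ∀ (c : F) x, w' (c • x) = v c * w' x) {z : L}
    (hz : z ≠ 0) (hd : ∀ (c d : F) (k l : ℕ), c ≠ 0 → d ≠ 0 → v c * w z ^ k = v d * w z ^ l →
      (k : ZMod p) = l) : w' z = w z := by
  classical
  obtain ⟨c, hc, i₀, hi₀⟩ := Fintype.not_linearIndependent_iff.1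
    (show ¬ LinearIndependent F fun i : Fin (p + 1) => z ^ (i : ℕ) from fun h => by
      have := h.fintype_card_le_finrank
      rw [hL, Fintype.card_fin] at this
      omega)
  have dom : ∀ u : Valuation L Γ, (∀ (c : F) x, u (c • x) = v c * u x) → ∀ k, c k ≠ 0 →
      ¬ ∀ i ≠ k, v (c i) * u z ^ (i : ℕ) < v (c k) * u z ^ (k : ℕ) := by
    intro u hu k hk h
    have := u.map_sum_eq_of_lt (f := fun i : Fin (p + 1) => c i • z ^ (i : ℕ)) (Finset.mem_univ k)
      fun i hi => by simpa only [hu, map_pow] using h i (by simpa using hi)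
    rw [hc, map_zero, hu] at this
    exact mul_ne_zero ((Valuation.ne_zero_iff v).2 hk)
      ((Valuation.ne_zero_iff u).2 (pow_ne_zero _ hz)) this.symm
  have hγ : w z ≠ 0 := (Valuation.ne_zero_iff w).2 hz
  have hγ' : w' z ≠ 0 := (Valuation.ne_zero_iff w').2 hz
  obtain ⟨k, -, hk⟩ := Finset.exists_max_image Finset.univ
    (fun i : Fin (p + 1) => v (c i) * w z ^ (i : ℕ)) Finset.univ_nonempty
  simp only [Finset.mem_univ, forall_true_left] at hk
  have hM : v (c k) * w z ^ (k : ℕ) ≠ 0 := fun h0 =>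
    mul_ne_zero ((Valuation.ne_zero_iff v).2 hi₀) (pow_ne_zero _ hγ) (le_zero_iff.1 (h0 ▸ hk i₀))
  have hck : c k ≠ 0 := (Valuation.ne_zero_iff v).1 (left_ne_zero_of_mul hM)
  obtain ⟨l, hl, hkl⟩ : ∃ l ≠ k, v (c l) * w z ^ (l : ℕ) = v (c k) * w z ^ (k : ℕ) := by
    by_contra h
    exact dom w hw k hck fun i hi => lt_of_le_of_ne (hk i) fun e => h ⟨i, hi, e⟩
  have hcl : c l ≠ 0 := (Valuation.ne_zero_iff v).1 (left_ne_zero_of_mul (hkl ▸ hM))
  have hmod := (ZMod.natCast_eq_natCast_iff' _ _ _).1 (hd _ _ _ _ hcl hck hkl)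
  have hends : ∀ i : Fin (p + 1), ((i : ℕ) = 0 ∨ (i : ℕ) = p) →
      c i ≠ 0 ∧ ∀ i', v (c i') * w z ^ (i' : ℕ) ≤ v (c i) * w z ^ (i : ℕ) := by
    intro i hi
    have : i = k ∨ i = l := by
      have h1 := Fin.val_ne_of_ne hl
      have h2 : ∀ t : Fin (p + 1), (t : ℕ) % p = t ∨ ((t : ℕ) = p ∧ (t : ℕ) % p = 0) := fun t =>
        (Nat.lt_succ_iff.1 t.2).lt_or_eq.imp Nat.mod_eq_of_lt fun h => ⟨h, by rw [h, Nat.mod_self]⟩
      have := h2 k
      have := h2 l
      rw [Fin.ext_iff, Fin.ext_iff]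
      omega
    rcases this with rfl | rfl
    · exact ⟨hck, hk⟩
    · exact ⟨hcl, hkl ▸ hk⟩
  obtain ⟨t, ht⟩ : ∃ t, w' z = w z * t := ⟨(w z)⁻¹ * w' z, (mul_inv_cancel_left₀ hγ _).symm⟩
  have ht0 : 0 < t := zero_lt_iff.2 (right_ne_zero_of_mul (ht ▸ hγ'))
  have key : ∀ i : Fin (p + 1), ((i : ℕ) = 0 ∨ (i : ℕ) = p) →
      ¬ ∀ i' ≠ i, t ^ (i' : ℕ) < t ^ (i : ℕ) := by
    intro i hi h
    obtain ⟨h1, h2⟩ := hends i hi
    refine dom w' hw' i h1 fun i' hi' => ?_
    rw [ht, mul_pow, mul_pow, ← mul_assoc, ← mul_assoc]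
    exact (mul_le_mul_left (h2 i') _).trans_lt (mul_lt_mul_of_pos_left (h i' hi') (zero_lt_iff.2
      (mul_ne_zero ((Valuation.ne_zero_iff v).2 h1) (pow_ne_zero _ hγ))))
  rcases lt_trichotomy t 1 with h | h | h
  · exact (key 0 (Or.inl rfl) fun i hi =>
      pow_lt_pow_right_of_lt_one₀ ht0 h (Fin.pos_iff_ne_zero.2 hi)).elim
  · rw [ht, h, mul_one]
  · exact (key (Fin.last p) (Or.inr rfl) fun i hi =>
      pow_lt_pow_right₀ h (Fin.lt_last_iff_ne_last.2 hi)).elim

end Pool.Agent.Lib.MP_e8e643_al
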