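import Pool.Agent.Lib.MP_e8e643_al.Tr

/-! The `p`-th tensor power of a symbol algebra of degree `p` is a matrix algebra. -/

namespace Pool.Agent.Lib.MP_e8e643_al

open Module TensorProduct PiTensorProduct

universe u

variable {F : Type u} [Field F]

theorem form_zero {B : Type*} [Ring B] [Algebra F B] (t : B →ₗ[F] F)
    (ht : ∀ x y, t (x * y) = t (y * x)) {p : ℕ} (hp : p ≠ 0) {u x : B} {c η θ : F}
    (hu : u ^ p = algebraMap F B c) (hc : c ≠ 0) (h : η • (u * x) = θ • (x * u)) (hη : η ≠ θ) :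
    t x = 0 := by
  obtain ⟨q, rfl⟩ := Nat.exists_eq_succ_of_ne_zero hp
  have h1 : t (x * u * u ^ q) = c * t x := by
    rw [mul_assoc, ← pow_succ', hu, ← Algebra.commutes, ← Algebra.smul_def, map_smul, smul_eq_mul]
  have h2 : t (u * x * u ^ q) = c * t x := by
    rw [mul_assoc, ht, mul_assoc, ← pow_succ, pow_succ', ← mul_assoc, h1]
  have h3 := congrArg (fun z => t (z * u ^ q)) h
  simp only [smul_mul_assoc, map_smul, h1, h2, smul_eq_mul] at h3
  by_contra h0
  exact hη (mul_right_cancel₀ (mul_ne_zero hc h0) h3)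

theorem weyl {B : Type*} [Ring B] [Algebra F B] {X Y : B} {ζ : F} (h : Y * X = ζ • (X * Y))
    (r s : ℕ) : Y ^ s * X ^ r = ζ ^ (r * s) • (X ^ r * Y ^ s) := by
  have h1 : ∀ r : ℕ, Y * X ^ r = ζ ^ r • (X ^ r * Y) := by
    intro r
    induction r with
    | zero => simp
    | succ r ih =>
      rw [pow_succ, ← mul_assoc, ih, smul_mul_assoc, mul_assoc, h, mul_smul_comm, smul_smul,
        pow_succ, mul_assoc]
  induction s with
  | zero => simp
  | succ s ih =>
    rw [pow_succ', mul_assoc, ih, mul_smul_comm, ← mul_assoc, h1, smul_mul_assoc, smul_smul,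
      mul_add, pow_add, mul_one, mul_assoc]

theorem ofFn_mul {M : Type*} [Monoid M] {n : ℕ} (u v : Fin n → M)
    (h : ∀ k l, k ≠ l → Commute (v k) (u l)) :
    (List.ofFn fun k => u k * v k).prod = (List.ofFn u).prod * (List.ofFn v).prod := by
  induction n with
  | zero => simp
  | succ n ih =>
    simp only [List.ofFn_succ, List.prod_cons]
    rw [ih _ _ fun k l hkl => h _ _ fun e => hkl (Fin.succ_injective _ e)]
    have : Commute (v 0) (List.ofFn fun k => u k.succ).prod :=
      Commute.list_prod_right _ _ (List.forall_mem_ofFn_iff.2 fun k => h _ _ (Fin.succ_ne_zero k).symm)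
    rw [mul_assoc, ← mul_assoc (v 0), this.eq, mul_assoc, mul_assoc]

/-- multiplication by `u` after `θ` -/
def op {R : Type*} [CommRing R] [Algebra F R] (u : R) (θ : R →ₐ[F] R) : End F R :=
  LinearMap.mulLeft F u * θ.toLinearMap

section op

variable {R : Type*} [CommRing R] [Algebra F R]

theorem op_mul (u v : R) (θ ψ : R →ₐ[F] R) : op u θ * op v ψ = op (u * θ v) (θ * ψ) := by
  ext x
  simp [op, mul_assoc]

theorem op_smul (c : F) (u : R) (θ : R →ₐ[F] R) : op (c • u) θ = c • op u θ := by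
  ext x
  simp [op]

theorem op_pow {u : R} {θ : R →ₐ[F] R} (h : θ u = u) {n : ℕ} {c : F} (hu : u ^ n = algebraMap F R c)
    (hθ : θ ^ n = 1) : op u θ ^ n = algebraMap F _ c := by
  have : ∀ m : ℕ, op u θ ^ m = op (u ^ m) (θ ^ m) := by
    intro m
    induction m with
    | zero => ext x; simp [op]
    | succ m ih => rw [pow_succ', ih, op_mul, map_pow, h, ← pow_succ', ← pow_succ']
  rw [this, hu, hθ]
  ext x
  simp [op, Algebra.smul_def]

end op

theorem exists_torus {p : ℕ} (hp : p ≠ 0) {ζ : F} (hζ : ζ ^ p = 1) {ι : Type} [Fintype ι]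
    [DecidableEq ι] (c : ι → F) : ∃ (R : Type u) (_ : CommRing R) (_ : Algebra F R) (y : ι → R)
      (τ : ι → R →ₐ[F] R), finrank F R = p ^ Fintype.card ι ∧ (∀ k, y k ^ p = algebraMap F R (c k)) ∧
      (∀ k l, τ k (y l) = (if k = l then ζ else 1) • y l) ∧ (∀ k l, τ k * τ l = τ l * τ k) ∧
      ∀ k, τ k ^ p = 1 := by
  let K : ι → Type u := fun k =>
    AdjoinRoot ((Polynomial.X + Polynomial.C 0) ^ p - Polynomial.C (c k))
  let C : ∀ k, Cyc p ζ 0 (c k) (K k) := fun k => (exists_cyc hp hζ 0 (c k)).some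
  let θ : ι → ∀ l, K l →ₐ[F] K l := fun k l => if k = l then (C l).σ else 1
  let τ : ι → (⨂[F] k, K k) →ₐ[F] ⨂[F] k, K k := fun k =>
    liftAlgHom ((PiTensorProduct.tprod F).compLinearMap fun l => (θ k l).toLinearMap)
      (by simp [PiTensorProduct.one_def, Pi.one_def])
      (fun x y => by simp [Pi.mul_def])
  have hτ : ∀ k l x, τ k (singleAlgHom l x) = singleAlgHom l (θ k l x) := by
    intro k l x
    simp only [τ, singleAlgHom_apply, liftAlgHom_apply, lift.tprod,
      MultilinearMap.compLinearMap_apply, MonoidHom.mulSingle_apply, AlgHom.toLinearMap_apply]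
    congr 1
    funext m
    exact Pi.apply_mulSingle (fun m => θ k m) (fun m => map_one _) l x m
  have hpow : ∀ k l (n : ℕ) x, (τ k ^ n) (singleAlgHom l x) = singleAlgHom l ((θ k l ^ n) x) := by
    intro k l n x
    induction n with
    | zero => rfl
    | succ n ih => rw [pow_succ', pow_succ', AlgHom.mul_apply, AlgHom.mul_apply, ih, hτ]
  refine ⟨⨂[F] k, K k, inferInstance, inferInstance, fun k => singleAlgHom k (C k).e, τ, ?_,
    fun k => ?_, fun k l => ?_, fun k l => ?_, fun k => ?_⟩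
  · rw [finrank_eq_card_basis (Basis.piTensorProduct fun k => (C k).bas)]
    simp
  · have := (C k).hpow
    rw [(algebraMap F (K k)).map_zero, add_zero] at this
    rw [← map_pow, this, AlgHom.commutes]
  · have := (C l).hσ
    rw [(algebraMap F (K l)).map_zero, add_zero] at this
    rw [hτ, ← map_smul]
    simp only [θ]
    split_ifs
    · rw [this]
    · simp
  · refine PiTensorProduct.algHom_ext fun m => AlgHom.ext fun x => ?_
    simp only [AlgHom.comp_apply, AlgHom.mul_apply, hτ, θ]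
    split_ifs <;> rfl
  · refine PiTensorProduct.algHom_ext fun m => AlgHom.ext fun x => ?_
    rw [AlgHom.comp_apply, hpow k]
    simp only [θ]
    split_ifs
    · rw [(C m).hσp]; rfl
    · rw [one_pow]; rfl

theorem exists_pairs {q : ℕ} {ζ : F} (hζ : ζ ^ (q + 1) = 1) (a : F) {b : F} (hb : b ≠ 0) :
    ∃ (R : Type u) (_ : AddCommGroup R) (_ : Module F R) (X Y : Fin (q + 1) → End F R),
      finrank F R = (q + 1) ^ (q + 1) ∧ (∀ k, X k ^ (q + 1) = algebraMap F _ a) ∧
      (∀ k, Y k ^ (q + 1) = algebraMap F _ b) ∧ (∀ k, Y k * X k = ζ • (X k * Y k)) ∧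
      ∀ k l, k ≠ l → Commute (X k) (X l) ∧ Commute (X k) (Y l) ∧ Commute (Y k) (Y l) := by
  obtain ⟨R, _, _, y, τ, hR, hy, hτ, hc, hτp⟩ := exists_torus q.succ_ne_zero hζ
    (Fin.cons a fun _ => b⁻¹ : Fin (q + 1) → F)
  let P : R := b • ∏ l : Fin q, y l.succ
  let Q : Fin q → R := fun l => b • y l.succ ^ q
  have hbq : b ^ (q + 1) * b⁻¹ ^ q = b := by
    rw [pow_succ', mul_assoc, ← mul_pow, mul_inv_cancel₀ hb, one_pow, mul_one]
  have hPp : P ^ (q + 1) = algebraMap F R b := by
    simp only [P, _root_.smul_pow, ← Finset.prod_pow, hy, Fin.cons_succ, Finset.prod_const,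
      Finset.card_univ, Fintype.card_fin]
    rw [← map_pow, Algebra.smul_def, ← map_mul, hbq]
  have hQp : ∀ l, Q l ^ (q + 1) = algebraMap F R b := fun l => by
    simp only [Q, _root_.smul_pow]
    rw [pow_right_comm, hy, Fin.cons_succ, ← map_pow, Algebra.smul_def, ← map_mul, hbq]
  have h00 : τ 0 (y 0) = ζ • y 0 := by simp [hτ]
  have hs0 : ∀ k : Fin q, τ k.succ (y 0) = y 0 := fun k => by simp [hτ]
  have h0P : τ 0 P = P := by simp [P, hτ, (Fin.succ_ne_zero _).symm]
  have hsP : ∀ k : Fin q, τ k.succ P = ζ • P := fun k => by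
    simp only [P, map_smul, map_prod, hτ, Fin.succ_inj, Finset.prod_smul, Finset.prod_ite_eq,
      Finset.mem_univ, if_true]
    rw [smul_comm]
  have h0Q : ∀ l, τ 0 (Q l) = Q l := fun l => by simp [Q, hτ, (Fin.succ_ne_zero _).symm]
  have hsQ : ∀ k l : Fin q, k ≠ l → τ k.succ (Q l) = Q l := fun k l h => by simp [Q, hτ, h]
  have hkQ : ∀ k : Fin q, ζ • τ k.succ (Q k) = Q k := fun k => by
    simp only [Q, map_smul, map_pow, hτ, if_true, _root_.smul_pow, smul_smul]
    rw [mul_left_comm, ← pow_succ', hζ, mul_one]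
  refine ⟨R, inferInstance, inferInstance, Fin.cons (op (y 0) 1) fun k => op (y 0) (τ k.succ),
    Fin.cons (op P (τ 0)) fun k => op (Q k) 1, by simpa using hR, ?_, ?_, ?_, ?_⟩
  · exact Fin.cases (op_pow rfl (hy 0) (one_pow _)) fun k => op_pow (hs0 k) (hy 0) (hτp _)
  · exact Fin.cases (op_pow h0P hPp (hτp _)) fun k => op_pow rfl (hQp k) (one_pow _)
  · refine Fin.cases ?_ fun k => ?_
    · simp [op_mul, ← op_smul, h00, mul_comm]
    · simp only [Fin.cons_succ, op_mul, ← op_smul, ← mul_smul_comm, hkQ, mul_one, one_mul,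
        AlgHom.one_apply, mul_comm]
  · refine Fin.cases (Fin.cases (fun h => absurd rfl h) fun l _ => ?_)
      fun k => Fin.cases (fun _ => ?_) fun l h => ?_
    · simp [Commute, SemiconjBy, op_mul, hs0, h0Q, mul_comm]
    · simp [Commute, SemiconjBy, op_mul, hs0, h0Q, hsP, h00, hc 0, mul_comm]
    · have h' : k ≠ l := fun e => h (congrArg _ e)
      simp [Commute, SemiconjBy, op_mul, hs0, hsQ _ _ h', hc k.succ, mul_comm]

namespace Sym

variable {A : Type u} [Ring A] [Algebra F A] {p : ℕ} {ζ ε a b : F} (S : Sym p ζ ε a b A)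

theorem exists_basis :
    ∃ B : Basis (Fin p × Fin p) F A, ∀ k, B k = S.I ^ (k.1 : ℕ) * S.J ^ (k.2 : ℕ) := by
  let f : Fin p × Fin p → A := fun k => S.I ^ (k.1 : ℕ) * S.J ^ (k.2 : ℕ)
  have h : ∀ (s : Fin p) (r k : ℕ), k + r < p →
      S.I ^ k * S.E ^ r * S.J ^ (s : ℕ) ∈ Submodule.span F (Set.range f) := by
    intro s r
    induction r with
    | zero => exact fun k hk => Submodule.subset_span ⟨(⟨k, hk⟩, s), by simp [f]⟩
    | succ r ih =>
      intro k hk
      have e : S.I ^ k * S.E ^ (r + 1) = S.I ^ (k + 1) * S.E ^ r - ε • (S.I ^ k * S.E ^ r) := by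
        rw [pow_succ S.I, mul_assoc, I, add_mul, mul_add, ← Algebra.smul_def, mul_smul_comm,
          add_sub_cancel_right, pow_succ']
      rw [e, sub_mul, smul_mul_assoc]
      exact sub_mem (ih _ (by omega)) (Submodule.smul_mem _ _ (ih _ (by omega)))
  refine ⟨basisOfTopLeSpanOfCardEqFinrank f ?_ (finrank_eq_card_basis S.bas).symm,
    fun k => congrFun (coe_basisOfTopLeSpanOfCardEqFinrank _ _ _) k⟩
  rw [← S.bas.span_eq, Submodule.span_le]
  rintro _ ⟨k, rfl⟩
  simpa [S.hbas] using h k.2 k.1 0 (by simp)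

theorem exists_hom (hp : p ≠ 0) {C : Type*} [Ring C] [Algebra F C] {X Y : C}
    (hX : X ^ p = algebraMap F C a) (hY : Y ^ p = algebraMap F C b) (h : Y * X = ζ • (X * Y)) :
    ∃ φ : A →ₐ[F] C, ∀ r s : ℕ, φ (S.I ^ r * S.J ^ s) = X ^ r * Y ^ s := by
  obtain ⟨B, hB⟩ := S.exists_basis
  let φ : A →ₗ[F] C := B.constr F fun k => X ^ (k.1 : ℕ) * Y ^ (k.2 : ℕ)
  have red : ∀ {D : Type _} [Ring D] [Algebra F D] {z : D} {c : F}, z ^ p = algebraMap F D c →
      ∀ r : ℕ, z ^ r = c ^ (r / p) • z ^ (r % p) := fun {D} _ _ {z c} hz r => by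
    conv_lhs => rw [← Nat.div_add_mod r p, pow_add, pow_mul, hz, ← map_pow, ← Algebra.smul_def]
  have hφ : ∀ r s : ℕ, φ (S.I ^ r * S.J ^ s) = X ^ r * Y ^ s := by
    intro r s
    have := B.constr_basis F (fun k => X ^ (k.1 : ℕ) * Y ^ (k.2 : ℕ))
      (⟨r % p, Nat.mod_lt _ (Nat.pos_of_ne_zero hp)⟩, ⟨s % p, Nat.mod_lt _ (Nat.pos_of_ne_zero hp)⟩)
    rw [hB] at this
    have e1 : X ^ r = a ^ (r / p) • X ^ (r % p) := by
      conv_lhs => rw [← Nat.div_add_mod r p, pow_add, pow_mul, hX, ← map_pow, ← Algebra.smul_def]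
    have e2 : Y ^ s = b ^ (s / p) • Y ^ (s % p) := by
      conv_lhs => rw [← Nat.div_add_mod s p, pow_add, pow_mul, hY, ← map_pow, ← Algebra.smul_def]
    rw [red (z := S.I) S.hI r, red S.hJ s, e1, e2]
    simp only [smul_mul_assoc, mul_smul_comm, map_smul, φ, this]
  refine ⟨AlgHom.ofLinearMap φ (by simpa using hφ 0 0)
    ((LinearMap.map_mul_iff φ).2 (B.ext fun k => B.ext fun l => ?_)), hφ⟩
  have e : ∀ {D : Type _} [Ring D] [Algebra F D] {X Y : D}, Y * X = ζ • (X * Y) → ∀ r s r' s' : ℕ,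
      X ^ r * Y ^ s * (X ^ r' * Y ^ s') = ζ ^ (r' * s) • (X ^ (r + r') * Y ^ (s + s')) :=
    fun {D} _ _ {X Y} h r s r' s' => by
      rw [mul_assoc, ← mul_assoc (Y ^ s), weyl h, smul_mul_assoc, mul_smul_comm, pow_add, pow_add]
      simp only [mul_assoc]
  have e' : ∀ r s r' s' : ℕ,
      X ^ r * Y ^ s * (X ^ r' * Y ^ s') = ζ ^ (r' * s) • (X ^ (r + r') * Y ^ (s + s')) :=
    fun r s r' s' => by
      rw [mul_assoc, ← mul_assoc (Y ^ s), weyl h, smul_mul_assoc, mul_smul_comm, pow_add, pow_add]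
      simp only [mul_assoc]
  change φ (B k * B l) = φ (B k) * φ (B l)
  rw [hB, hB, e (X := S.I) S.hJI, map_smul, hφ, hφ, hφ, e']

include S in
theorem injective (hζ : IsPrimitiveRoot ζ p) (hp : p ≠ 0) (ha : a ≠ 0) (hb : b ≠ 0) [IsDomain A]
    {ι : Type} [Fintype ι] [DecidableEq ι] {R : Type*} [AddCommGroup R] [Module F R]
    [FiniteDimensional F R] (hR : (finrank F R : F) ≠ 0) (Φ : (⨂[F] _ : ι, A) →ₐ[F] End F R) :
    Function.Injective Φ := by
  have := Module.Finite.of_basis S.bas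
  obtain ⟨B, hB⟩ := S.exists_basis
  let M := Basis.piTensorProduct fun _ : ι => B
  let t : (⨂[F] _ : ι, A) →ₗ[F] F := (LinearMap.trace F R).comp Φ.toLinearMap
  have ht : ∀ x y, t (x * y) = t (y * x) := fun x y => by
    simp only [t, LinearMap.comp_apply, AlgHom.toLinearMap_apply, map_mul]
    exact LinearMap.trace_mul_comm F _ _
  have ht1 : t 1 = finrank F R := by simp [t]
  have hs : ∀ (k : ι) (z : A) (m : ι → A) (η θ : F), η • (z * m k) = θ • (m k * z) →
      η • (singleAlgHom k z * PiTensorProduct.tprod F m : ⨂[F] _ : ι, A) = θ • (PiTensorProduct.tprod F m * singleAlgHom k z) := by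
    intro k z m η θ h
    have e1 : MonoidHom.mulSingle (fun _ : ι => A) k z * m = Function.update m k (z * m k) := by
      funext l
      by_cases hl : l = k
      · subst hl; simp
      · simp [hl]
    have e2 : m * MonoidHom.mulSingle (fun _ : ι => A) k z = Function.update m k (m k * z) := by
      funext l
      by_cases hl : l = k
      · subst hl; simp
      · simp [hl]
    rw [singleAlgHom_apply, tprod_mul_tprod, tprod_mul_tprod, e1, e2,
      ← MultilinearMap.map_update_smul, ← MultilinearMap.map_update_smul, h]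
  refine (injective_iff_map_eq_zero _).2 fun x hx => M.ext_elem fun m => ?_
  choose n hn using fun k => FiniteDimensional.exists_mul_eq_one F (B.ne_zero (m k))
  have hn' : ∀ k, n k * B (m k) = 1 := fun k => mul_left_cancel₀ (B.ne_zero (m k)) (by
    rw [← mul_assoc, hn, one_mul, mul_one])
  have h1 : ∀ m', t (M m' * PiTensorProduct.tprod F n) = if m' = m then (finrank F R : F) else 0 := by
    intro m'
    rw [Basis.piTensorProduct_apply, tprod_mul_tprod]
    split_ifs with h
    · rw [← ht1, h]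
      exact congrArg (fun z => t (PiTensorProduct.tprod F z)) (funext hn)
    obtain ⟨k, hk⟩ := Function.ne_iff.1 h
    have key : ∀ {z : A} {c : F} {e : Fin p × Fin p → F} {e' : Fin p × Fin p → F},
        z ^ p = algebraMap F A c → c ≠ 0 → (∀ i, e i • (z * B i) = e' i • (B i * z)) →
        e (m' k) * e' (m k) ≠ e' (m' k) * e (m k) → t (PiTensorProduct.tprod F ((fun i => B (m' i)) * n)) = 0 := by
      intro z c e e' hz hc h hne
      refine form_zero t ht hp (u := singleAlgHom k z) (by rw [← map_pow, hz, AlgHom.commutes]) hc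
        (hs k z _ _ _ ?_) hne
      have h2 : e (m k) • (n k * z) = e' (m k) • (z * n k) := by
        have := congrArg (fun w => n k * w * n k) (h (m k))
        simpa only [mul_smul_comm, smul_mul_assoc, mul_assoc, hn, mul_one, ← mul_assoc (n k) (B _),
          hn', one_mul] using this
      rw [Pi.mul_apply, ← mul_assoc, mul_comm (e _), mul_smul, ← smul_mul_assoc, h, smul_mul_assoc,
        smul_comm, mul_smul, mul_assoc, mul_assoc, ← mul_smul_comm, ← mul_smul_comm (e _), h2]
    by_cases h1 : (m' k).1 = (m k).1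
    · have h2 : (m' k).2 ≠ (m k).2 := fun e => hk (Prod.ext h1 e)
      refine key (z := S.I) (e := fun i => ζ ^ (i.2 : ℕ)) (e' := fun _ => 1) S.hI ha (fun i => ?_) ?_
      · rw [hB, one_smul, mul_assoc, J_I', mul_smul_comm, ← mul_assoc, ← mul_assoc, ← pow_succ,
          ← pow_succ']
      · simpa using fun e => h2 (Fin.ext (hζ.pow_inj (m' k).2.2 (m k).2.2 e))
    · refine key (z := S.J) (e := fun _ => 1) (e' := fun i => ζ ^ (i.1 : ℕ)) S.hJ hb (fun i => ?_) ?_
      · rw [hB, one_smul, ← mul_assoc, J_I, smul_mul_assoc, mul_assoc, mul_assoc, ← pow_succ,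
          ← pow_succ']
      · simpa using fun e => h1 (Fin.ext (hζ.pow_inj (m' k).1.2 (m k).1.2 e.symm))
  have h2 : t (x * PiTensorProduct.tprod F n) = 0 := by simp [t, hx]
  rw [← M.sum_repr x, Finset.sum_mul, map_sum] at h2
  simp only [smul_mul_assoc, map_smul, h1, smul_eq_mul, mul_ite, mul_zero, Finset.sum_ite_eq',
    Finset.mem_univ, if_true] at h2
  simpa using (mul_eq_zero.1 h2).resolve_right hR

include S in
theorem pow_split (hζ : IsPrimitiveRoot ζ p) (hp : (p : F) ≠ 0) (ha : a ≠ 0) (hb : b ≠ 0)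
    [IsDomain A] : ∃ n, Nonempty ((⨂[F] _ : Fin p, A) ≃ₐ[F] Matrix (Fin n) (Fin n) F) := by
  have hp' : p ≠ 0 := by rintro rfl; simp at hp
  obtain ⟨q, rfl⟩ := Nat.exists_eq_succ_of_ne_zero hp'
  obtain ⟨R, _, _, X, Y, hR, hX, hY, hXY, hc⟩ := exists_pairs hζ.pow_eq_one a hb
  choose φ hφ using fun k => S.exists_hom hp' (hX k) (hY k) (hXY k)
  obtain ⟨B, hB⟩ := S.exists_basis
  have hcomm : ∀ k l, k ≠ l → ∀ x y, Commute (φ k x) (φ l y) := by
    intro k l h x y
    rw [← B.sum_repr x, ← B.sum_repr y, map_sum, map_sum]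
    refine Commute.sum_left _ _ _ fun i _ => Commute.sum_right _ _ _ fun j _ => ?_
    rw [map_smul, map_smul, hB, hB, hφ, hφ]
    obtain ⟨h1, h2, h3⟩ := hc k l h
    exact ((((h1.pow_pow _ _).mul_right (h2.pow_pow _ _)).mul_left
      (((hc l k h.symm).2.1.symm.pow_pow _ _).mul_right (h3.pow_pow _ _))).smul_left _).smul_right _
  let Φ : (⨂[F] _ : Fin (q + 1), A) →ₐ[F] End F R := liftAlgHom
    ((MultilinearMap.mkPiAlgebraFin F (q + 1) (End F R)).compLinearMap fun k => (φ k).toLinearMap)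
    (by simp [List.ofFn_const]) fun x y => by
      simpa only [MultilinearMap.compLinearMap_apply, MultilinearMap.mkPiAlgebraFin_apply,
        AlgHom.toLinearMap_apply, Pi.mul_apply, map_mul] using
        ofFn_mul _ _ fun k l h => hcomm k l h _ _
  have : FiniteDimensional F R := .of_finrank_pos (by rw [hR]; positivity)
  have hinj := S.injective hζ hp' ha hb (by rw [hR, Nat.cast_pow]; exact pow_ne_zero _ hp) Φ
  have := Module.Finite.of_basis (Basis.piTensorProduct fun _ : Fin (q + 1) => B)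
  have hsurj := (LinearMap.injective_iff_surjective_of_finrank_eq_finrank (f := Φ.toLinearMap) (by
    rw [finrank_eq_card_basis (Basis.piTensorProduct fun _ : Fin (q + 1) => B), finrank_linearMap,
      hR]
    simp [mul_pow])).1 hinj
  exact ⟨_, ⟨(AlgEquiv.ofBijective Φ ⟨hinj, hsurj⟩).trans (algEquivMatrix (finBasis F R))⟩⟩

end Sym

end Pool.Agent.Lib.MP_e8e643_al
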