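import Pool.Agent.Lib.MP_e8e643_al.Core
import Pool.Agent.Lib.MP_e8e643_al.Exp

/-! `p + 2` symbol algebras of degree `p` without a common splitting field of degree `p`. -/

namespace Pool.Agent.Lib.MP_e8e643_al

open Module TensorProduct

universe u

variable {F : Type u} [Field F] {Γ : Type*} [LinearOrderedCommGroupWithZero Γ]
  {p : ℕ} {ζ α β : F}

/-- what is used of the algebra `(ε + α^μ₁ β^μ₂, α^ν₁ β^ν₂)` -/
structure Good (S : Setup p Γ ζ α β) (ε : F) (μ ν : ℕ × ℕ) (A : Type u) [Ring A] [Algebra F A] where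
  w : Valuation A Γ
  dom : IsDomain A
  rank : finrank F A = p ^ 2
  central : Algebra.IsCentral F A
  split : ∃ n, Nonempty ((⨂[F] _ : Fin p, A) ≃ₐ[F] Matrix (Fin n) (Fin n) F)
  smul : ∀ (c : F) x, w (c • x) = S.v c * w x
  low : ε = 0 → ∀ y, S.v (tr F A y) ≤ S.v p ^ 2 * w y
  cls : ∀ y : A, ∃ c₀ : F, y - algebraMap F A c₀ ≠ 0 → ∃ (c : F) (r s : ℕ), c ≠ 0 ∧
    ((r : ZMod p) ≠ 0 ∨ (s : ZMod p) ≠ 0) ∧ w (y - algebraMap F A c₀) =
      S.v c * (S.x ^ (μ.1 * r + ν.1 * s) * S.y ^ (μ.2 * r + ν.2 * s))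
  high : ε = 1 → ∀ (y : A) (c : F) (i j : ℕ), c ≠ 0 → w y = S.v c * (S.x ^ i * S.y ^ j) →
    (i : ZMod p) = -μ.1 → (j : ZMod p) = -μ.2 → S.v p ^ 2 * w y < S.v (tr F A y)

theorem exists_good (hp : p.Prime) (hp0 : (p : F) ≠ 0) (hζ : IsPrimitiveRoot ζ p)
    (S : Setup p Γ ζ α β) {ε : F} (hε : ε = 0 ∨ ε = 1) {μ ν : ℕ × ℕ} (hμ : μ.1 ≠ 0 ∨ μ.2 ≠ 0)
    (hdet : ∀ r s : ZMod p, μ.1 * r + ν.1 * s = 0 → μ.2 * r + ν.2 * s = 0 → r = 0 ∧ s = 0) :
    ∃ A : AlgCat.{u} F, Nonempty (Good S ε μ ν A) := by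
  have : NeZero p := ⟨hp.ne_zero⟩
  obtain ⟨A, ⟨T⟩⟩ := exists_sym hp.ne_zero hζ.pow_eq_one ε (ε ^ p + α ^ μ.1 * β ^ μ.2)
    (α ^ ν.1 * β ^ ν.2)
  set e := S.x ^ μ.1 * S.y ^ μ.2 with he
  set j := S.x ^ ν.1 * S.y ^ ν.2 with hj
  have hxy : ∀ i k : ℕ, S.x ^ i * S.y ^ k ≠ 0 := fun i k =>
    mul_ne_zero (pow_ne_zero _ S.x0) (pow_ne_zero _ S.y0)
  have hg : ∀ r s : ℕ, e ^ r * j ^ s = S.x ^ (μ.1 * r + ν.1 * s) * S.y ^ (μ.2 * r + ν.2 * s) := by
    intro r s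
    simp only [he, hj, mul_pow, pow_add, pow_mul]
    ac_rfl
  have hfin : ∀ r s : Fin p, ((r : ℕ) : ZMod p) = (s : ℕ) → r = s := fun r s h => by
    have := (ZMod.natCast_eq_natCast_iff' _ _ _).1 h
    rwa [Nat.mod_eq_of_lt r.2, Nat.mod_eq_of_lt s.2, ← Fin.ext_iff] at this
  have hd : Dist S.v fun k : Fin p × Fin p => e ^ (k.1 : ℕ) * j ^ (k.2 : ℕ) := by
    refine ⟨fun k => (hg _ _).trans_ne (hxy _ _), fun k l c d hc hd h => ?_⟩
    simp only [hg] at h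
    obtain ⟨h1, h2⟩ := S.dist _ _ _ _ _ _ hc hd h
    push_cast at h1 h2
    obtain ⟨h3, h4⟩ := hdet ((k.1 : ℕ) - (l.1 : ℕ)) ((k.2 : ℕ) - (l.2 : ℕ))
      (by linear_combination h1) (by linear_combination h2)
    exact Prod.ext (hfin _ _ (sub_eq_zero.1 h3)) (hfin _ _ (sub_eq_zero.1 h4))
  have hv : ∀ i k : ℕ, S.v (α ^ i * β ^ k) = (S.x ^ i * S.y ^ k) ^ p := fun i k => by
    rw [map_mul, map_pow, map_pow, S.hα, S.hβ, mul_pow, pow_right_comm, pow_right_comm S.y]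
  have he1 : e < 1 := by
    rcases hμ with h | h
    · exact (mul_le_of_le_one_right' (pow_le_one₀ zero_le S.y1.le)).trans_lt
        (pow_lt_one₀ zero_le S.x1 h)
    · exact (mul_le_of_le_one_left' (pow_le_one₀ zero_le S.x1.le)).trans_lt
        (pow_lt_one₀ zero_le S.y1 h)
  have hb : α ^ ν.1 * β ^ ν.2 ≠ 0 :=
    (Valuation.ne_zero_iff S.v).1 (by rw [hv]; exact pow_ne_zero _ (hxy _ _))
  have ha : ε ^ p + α ^ μ.1 * β ^ μ.2 ≠ 0 := by
    refine (Valuation.ne_zero_iff S.v).1 ?_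
    rcases hε with rfl | rfl
    · rw [zero_pow hp.ne_zero, zero_add, hv]
      exact pow_ne_zero _ (hxy _ _)
    · rw [one_pow, S.v.map_one_add_of_lt (by rw [hv]; exact pow_lt_one₀ zero_le he1 hp.ne_zero)]
      exact one_ne_zero
  obtain ⟨w, hw⟩ := T.exists_val hp S.v rfl hd (hxy _ _) (hxy _ _) (hv _ _) (hv _ _)
    (by rcases hε with rfl | rfl <;> simp) he1
    (by have := S.sp (μ.1 * p) (μ.2 * p); rwa [pow_mul, pow_mul, ← mul_pow] at this) (S.sz _ _)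
  have hw0 : ∀ x, x ≠ 0 → w x ≠ 0 := fun x hx => by rw [hw]; exact hd.nrm_ne _ hx
  have : Nontrivial A := ⟨1, 0, fun h => by simpa using congrArg w h⟩
  have : NoZeroDivisors A := ⟨fun {x y} h => by
    by_contra h0
    push Not at h0
    exact mul_ne_zero (hw0 _ h0.1) (hw0 _ h0.2) (by rw [← map_mul, h, map_zero])⟩
  have : IsDomain A := NoZeroDivisors.to_isDomain A
  have hone : T.bas (0, 0) = 1 := by rw [T.hbas]; simp
  refine ⟨A, ⟨⟨w, inferInstance, T.finrank_eq, T.isCentral hζ ha hb hp0,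
    T.pow_split hζ hp0 ha hb, fun c x => by rw [hw, hw, nrm_smul], ?_, fun y => ⟨T.bas.repr y (0, 0), fun h0 => ?_⟩, ?_⟩⟩⟩
  · rintro rfl y
    rw [T.tr_eq hζ ha hb, map_mul, map_pow]
    refine mul_le_mul_right (S.v.map_sum_le fun r _ => ?_) _
    by_cases hr : r = 0
    · subst hr
      simpa [hw] using le_nrm S.v T.bas
        (fun k : Fin p × Fin p => e ^ (k.1 : ℕ) * j ^ (k.2 : ℕ)) y (0, 0)
    · rw [neg_zero, zero_pow (by simpa using hr), zero_mul, map_zero]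
      exact zero_le
  · obtain ⟨k, hk, h⟩ := exists_nrm S.v T.bas
      (fun k : Fin p × Fin p => e ^ (k.1 : ℕ) * j ^ (k.2 : ℕ)) h0
    refine ⟨_, k.1, k.2, hk, ?_, by rw [hw, h, hg]⟩
    by_contra h1
    push Not at h1
    obtain rfl : k = (0, 0) :=
      Prod.ext (hfin _ 0 (by simpa using h1.1)) (hfin _ 0 (by simpa using h1.2))
    rw [Algebra.algebraMap_eq_smul_one, ← hone] at hk
    simp at hk
  · rintro rfl y c i i' hc hy hi hi'
    have hy0 : y ≠ 0 := by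
      rintro rfl
      exact mul_ne_zero ((Valuation.ne_zero_iff _).2 hc) (hxy _ _) (by rw [← hy, map_zero])
    obtain ⟨⟨r, s⟩, hk, h⟩ := exists_nrm S.v T.bas
      (fun k : Fin p × Fin p => e ^ (k.1 : ℕ) * j ^ (k.2 : ℕ)) hy0
    obtain ⟨h1, h2⟩ := S.dist _ _ _ _ _ _ hc hk (by rw [← hy, hw, h, hg])
    push_cast at h1 h2
    obtain ⟨h3, h4⟩ := hdet ((r : ℕ) + 1) (s : ℕ) (by linear_combination hi - h1)
      (by linear_combination hi' - h2)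
    obtain rfl : s = 0 := hfin _ 0 (by simpa using h4)
    have hr : (r : ℕ) + 1 = p := by
      have : p ∣ (r : ℕ) + 1 := (ZMod.natCast_eq_zero_iff _ _).1 (by exact_mod_cast h3)
      exact le_antisymm r.2 (Nat.le_of_dvd (Nat.succ_pos _) this)
    have he0 : 0 < e := zero_lt_iff.2 (hxy _ _)
    have hsum : S.v (∑ r : Fin p, (-1 : F) ^ (r : ℕ) * T.bas.repr y (r, 0)) =
        S.v (T.bas.repr y (r, 0)) := by
      classical
      rw [S.v.map_sum_eq_of_lt (Finset.mem_univ r) fun t ht => ?_]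
      · simp
      have ht' : t ≠ r := by simpa using ht
      have h5 := hd.lt T.bas hk h (j := (t, 0)) fun h => ht' (congrArg Prod.fst h)
      rw [h] at h5
      simp only [Fin.val_zero, pow_zero, mul_one, map_mul, map_pow, Valuation.map_neg, map_one,
        one_pow, one_mul] at h5 ⊢
      refine lt_of_mul_lt_mul_right (h5.trans_le (mul_le_mul_right
        (pow_le_pow_right_of_le_one' he1.le (show (t : ℕ) ≤ r by have := t.2; omega)) _)) zero_le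
    rw [T.tr_eq hζ ha hb, map_mul, map_pow, hsum, hw, h]
    refine mul_lt_mul_of_pos_left ?_
      (pow_pos (zero_lt_iff.2 ((Valuation.ne_zero_iff _).2 hp0)) _)
    refine mul_lt_of_lt_one_right (zero_lt_iff.2 ((Valuation.ne_zero_iff _).2 hk)) ?_
    simpa using pow_lt_one₀ zero_le he1 (show (r : ℕ) ≠ 0 by have := hp.two_le; omega)

theorem no_field (hp : p.Prime) (S : Setup p Γ ζ α β) {A₀ A₁ : Type u} {A : Fin p → Type u}
    [Ring A₀] [Algebra F A₀] [Ring A₁] [Algebra F A₁] [∀ k, Ring (A k)] [∀ k, Algebra F (A k)]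
    (G₀ : Good S 0 (1, 0) (0, 1) A₀) (G₁ : Good S 1 (0, 1) (1, 0) A₁)
    (G : ∀ k : Fin p, Good S 1 (1, k) (0, 1) (A k)) (L : Type*) [Field L] [Algebra F L]
    (hL : finrank F L ∣ p)
    (e₀ : ∃ n, Nonempty (L ⊗[F] A₀ ≃ₐ[L] Matrix (Fin n) (Fin n) L))
    (e₁ : ∃ n, Nonempty (L ⊗[F] A₁ ≃ₐ[L] Matrix (Fin n) (Fin n) L))
    (e : ∀ k, ∃ n, Nonempty (L ⊗[F] A k ≃ₐ[L] Matrix (Fin n) (Fin n) L)) : False := by
  have := Fact.mk hp
  have : FiniteDimensional F L := .of_finrank_pos (Nat.pos_of_dvd_of_pos hL hp.pos)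
  obtain ⟨_, ⟨e₀⟩⟩ := e₀
  have := G₀.dom
  obtain ⟨hLp, φ₀, hφ₀⟩ := emb hp G₀.rank L hL e₀
  obtain ⟨z₀, hz₀⟩ : ∃ z₀ : L, z₀ ∉ (⊥ : Subalgebra F L) := by
    by_contra h
    push Not at h
    have := Subalgebra.bot_eq_top_iff_finrank_eq_one.1 (eq_top_iff.2 fun z _ => h z)
    have := hp.one_lt
    omega
  obtain ⟨c₀, hc₀⟩ := G₀.cls (φ₀ z₀)
  set z := z₀ - algebraMap F L c₀ with hzd
  have hz : z ≠ 0 := fun h => hz₀ (Algebra.mem_bot.2 ⟨c₀, (sub_eq_zero.1 h).symm⟩)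
  have hz' : φ₀ z₀ - algebraMap F A₀ c₀ = φ₀ z := by rw [hzd, map_sub, AlgHom.commutes]
  rw [hz'] at hc₀
  obtain ⟨c, r, s, hc, hrs, hw⟩ := hc₀ ((map_ne_zero φ₀).2 hz)
  simp only [one_mul, zero_mul, add_zero, zero_add] at hw
  have hwn : ∀ n : ℕ, G₀.w (φ₀ z) ^ n = S.v (c ^ n) * (S.x ^ (n * r) * S.y ^ (n * s)) := by
    intro n
    rw [hw, map_pow, mul_pow, mul_pow, ← pow_mul, ← pow_mul, mul_comm r, mul_comm s]
  have key : ∀ {B : Type u} [Ring B] [Algebra F B] {μ ν : ℕ × ℕ} (_ : Good S 1 μ ν B)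
      (_ : ∃ n, Nonempty (L ⊗[F] B ≃ₐ[L] Matrix (Fin n) (Fin n) L)) (n : ℕ),
      (n : ZMod p) * r = -μ.1 → (n : ZMod p) * s = -μ.2 → False := by
    rintro B _ _ μ ν H ⟨_, ⟨f⟩⟩ n h1 h2
    have := H.dom
    obtain ⟨-, φ, hφ⟩ := emb hp H.rank L hL f
    have h3 : H.w (φ z) = G₀.w (φ₀ z) := by
      refine val_unique S.v hLp (G₀.w.comap φ₀.toRingHom) (H.w.comap φ.toRingHom)
        (fun c x => by simpa using G₀.smul c (φ₀ x)) (fun c x => by simpa using H.smul c (φ x)) hz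
        fun d d' k l hd hd' h => ?_
      change S.v d * G₀.w (φ₀ z) ^ k = S.v d' * G₀.w (φ₀ z) ^ l at h
      rw [hwn, hwn, ← mul_assoc, ← mul_assoc (S.v d'), ← map_mul, ← map_mul] at h
      obtain ⟨h4, h5⟩ := S.dist _ _ _ _ _ _ (mul_ne_zero hd (pow_ne_zero _ hc))
        (mul_ne_zero hd' (pow_ne_zero _ hc)) h
      push_cast at h4 h5
      exact hrs.elim (fun h => mul_right_cancel₀ h h4) fun h => mul_right_cancel₀ h h5
    have h4 := H.high rfl (φ (z ^ n)) (c ^ n) (n * r) (n * s) (pow_ne_zero _ hc)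
      (by rw [map_pow φ, map_pow, h3, hwn]) (by exact_mod_cast h1) (by exact_mod_cast h2)
    have h5 := G₀.low rfl (φ₀ (z ^ n))
    rw [hφ, ← hφ₀, map_pow φ, map_pow, h3] at h4
    rw [map_pow φ₀ z n, map_pow G₀.w, ← map_pow φ₀] at h5
    exact not_lt.2 h5 h4
  by_cases hr : (r : ZMod p) = 0
  · have hs := hrs.resolve_left (not_not.2 hr)
    exact key G₁ e₁ (-(s : ZMod p)⁻¹).val (by simp [hr]) (by simp [hs])
  · refine key (G ⟨((s : ZMod p) / r).val, ZMod.val_lt _⟩) (e _) (-(r : ZMod p)⁻¹).val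
      (by simp [hr]) ?_
    simp [div_eq_inv_mul]

theorem main (hp : p.Prime) (hp0 : (p : F) ≠ 0) (hζ : IsPrimitiveRoot ζ p)
    (S : Setup p Γ ζ α β) : ∃ A : Fin (p + 2) → CSA.{u, u} F,
      (∀ i, finrank F (A i) = p ^ 2 ∧
        ∃ n, Nonempty ((⨂[F] _ : Fin p, A i) ≃ₐ[F] Matrix (Fin n) (Fin n) F)) ∧
      ∀ (L : Type u) [Field L] [Algebra F L], finrank F L ∣ p →
        ¬ ∀ i, ∃ n, Nonempty (L ⊗[F] A i ≃ₐ[L] Matrix (Fin n) (Fin n) L) := by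
  have mk : ∀ {ε : F} {μ ν : ℕ × ℕ}, (∃ A : AlgCat.{u} F, Nonempty (Good S ε μ ν A)) →
      ∃ A : CSA.{u, u} F, Nonempty (Good S ε μ ν A) := by
    rintro ε μ ν ⟨A, ⟨G⟩⟩
    have := G.dom
    have := G.central
    have : FiniteDimensional F A := .of_finrank_pos (by rw [G.rank]; exact pow_pos hp.pos _)
    have : IsSimpleRing A :=
      @DivisionRing.isSimpleRing A (divisionRingOfFiniteDimensional F A)
    exact ⟨⟨A⟩, ⟨G⟩⟩
  obtain ⟨A₀, ⟨G₀⟩⟩ := mk (exists_good hp hp0 hζ S (Or.inl rfl) (μ := (1, 0)) (ν := (0, 1))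
    (by simp) fun r s h1 h2 => by simpa using And.intro h1 h2)
  obtain ⟨A₁, ⟨G₁⟩⟩ := mk (exists_good hp hp0 hζ S (Or.inr rfl) (μ := (0, 1)) (ν := (1, 0))
    (by simp) fun r s h1 h2 => by simpa using And.intro h2 h1)
  choose A G using fun k : Fin p => mk (exists_good hp hp0 hζ S (Or.inr rfl) (μ := (1, k))
    (ν := (0, 1)) (by simp) fun r s h1 h2 => by
      have h3 : r = 0 := by simpa using h1
      exact ⟨h3, by simpa [h3] using h2⟩)
  refine ⟨Fin.cons A₀ (Fin.cons A₁ A), fun i => ?_, fun L _ _ hL h =>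
    no_field hp S G₀ G₁ (fun k => (G k).some) L hL (h 0) (h 1) fun k => h k.succ.succ⟩
  exact Fin.cases ⟨G₀.rank, G₀.split⟩
    (fun i => Fin.cases ⟨G₁.rank, G₁.split⟩ (fun k => ⟨(G k).some.rank, (G k).some.split⟩) i) i

end Pool.Agent.Lib.MP_e8e643_al
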