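import Mathlib

/-! Symbol algebras with the basis `(i - ε)^r j^s`. -/

namespace Pool.Agent.Lib.MP_e8e643_al

open Module Polynomial TensorProduct

universe u

variable {F : Type u} [Field F]

/-- `K = F[x] / (x^p - a)` with the generator `e = x - ε` and the automorphism `x ↦ ζ x` -/
structure Cyc (p : ℕ) (ζ ε a : F) (K : Type u) [CommRing K] [Algebra F K] where
  e : K
  σ : K →ₐ[F] K
  bas : Basis (Fin p) F K
  hbas : ∀ r, bas r = e ^ (r : ℕ)
  hpow : (e + algebraMap F K ε) ^ p = algebraMap F K a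
  hσ : σ (e + algebraMap F K ε) = ζ • (e + algebraMap F K ε)
  hσp : σ ^ p = 1

theorem exists_cyc {p : ℕ} (hp : p ≠ 0) {ζ : F} (hζ : ζ ^ p = 1) (ε a : F) :
    Nonempty (Cyc p ζ ε a (AdjoinRoot ((X + C ε) ^ p - C a))) := by
  have hdeg : ((X + C ε) ^ p : F[X]).natDegree = p := by
    rw [(monic_X_add_C ε).natDegree_pow, natDegree_X_add_C, mul_one]
  have hlt : (C a : F[X]).natDegree < ((X + C ε) ^ p : F[X]).natDegree := by
    rw [hdeg, natDegree_C]; omega
  have hm : ((X + C ε) ^ p - C a : F[X]).Monic :=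
    ((monic_X_add_C ε).pow p).sub_of_left (degree_lt_degree hlt)
  have hd : ((X + C ε) ^ p - C a : F[X]).natDegree = p := by
    rw [natDegree_sub_eq_left_of_natDegree_lt hlt, hdeg]
  set g : F[X] := (X + C ε) ^ p - C a with hg
  have hev : ∀ z : AdjoinRoot g, aeval z g = (z + algebraMap F _ ε) ^ p - algebraMap F _ a := by
    intro z
    change aeval z ((X + C ε) ^ p - C a : F[X]) = _
    simp only [map_sub, map_pow, map_add, aeval_X, aeval_C]
  have hpow : (AdjoinRoot.root g + algebraMap F _ ε) ^ p = algebraMap F (AdjoinRoot g) a := by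
    have := AdjoinRoot.aeval_eq (f := g) g
    rwa [AdjoinRoot.mk_self, hev, sub_eq_zero] at this
  let σ : AdjoinRoot g →ₐ[F] AdjoinRoot g := AdjoinRoot.liftAlgHom g (Algebra.ofId F _)
    (ζ • (AdjoinRoot.root g + algebraMap F _ ε) - algebraMap F _ ε) (by
      change aeval _ g = 0
      rw [hev, sub_add_cancel, _root_.smul_pow, hζ, hpow, one_smul, sub_self])
  have hσ : σ (AdjoinRoot.root g + algebraMap F _ ε) =
      ζ • (AdjoinRoot.root g + algebraMap F _ ε) := by
    rw [map_add, AlgHom.commutes, AdjoinRoot.liftAlgHom_root, sub_add_cancel]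
  have hσn : ∀ n : ℕ, (σ ^ n) (AdjoinRoot.root g + algebraMap F _ ε) =
      ζ ^ n • (AdjoinRoot.root g + algebraMap F _ ε) := by
    intro n
    induction n with
    | zero => simp
    | succ n ih => rw [pow_succ', AlgHom.mul_apply, ih, map_smul, hσ, smul_smul, pow_succ]
  refine ⟨⟨AdjoinRoot.root g, σ, (AdjoinRoot.powerBasis' hm).basis.reindex (finCongr hd),
    fun r => ?_, hpow, hσ, AdjoinRoot.algHom_ext ?_⟩⟩
  · rw [Basis.reindex_apply, PowerBasis.basis_eq_pow]
    rfl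
  · have := hσn p
    rw [hζ, one_smul, map_add, AlgHom.commutes] at this
    exact add_right_cancel this

/-- the symbol algebra `(a, b)_ζ` with `i = E + ε`, `j = J` -/
structure Sym (p : ℕ) (ζ ε a b : F) (A : Type u) [Ring A] [Algebra F A] where
  E : A
  J : A
  hI : (E + algebraMap F A ε) ^ p = algebraMap F A a
  hJ : J ^ p = algebraMap F A b
  hJI : J * (E + algebraMap F A ε) = ζ • ((E + algebraMap F A ε) * J)
  bas : Basis (Fin p × Fin p) F A
  hbas : ∀ k, bas k = E ^ (k.1 : ℕ) * J ^ (k.2 : ℕ)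

theorem Cyc.exists_sym {p : ℕ} {ζ ε a b : F} {K K' : Type u} [CommRing K] [Algebra F K]
    [CommRing K'] [Algebra F K'] (c : Cyc p ζ ε a K) (c' : Cyc p ζ 0 b K') :
    ∃ A : Subalgebra F (End F (K ⊗[F] K')), Nonempty (Sym p ζ ε a b A) := by
  have hy := c'.hpow
  have hτ := c'.hσ
  rw [map_zero, add_zero] at hy hτ
  set x := c.e + algebraMap F K ε with hx
  let I : End F (K ⊗[F] K') := TensorProduct.map (LinearMap.mulLeft F x) 1
  let J : End F (K ⊗[F] K') := TensorProduct.map c.σ.toLinearMap (LinearMap.mulLeft F c'.e)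
  let I' : End F (K ⊗[F] K') := TensorProduct.map (LinearMap.mulLeft F x) c'.σ.toLinearMap
  let J' : End F (K ⊗[F] K') := TensorProduct.map 1 (LinearMap.mulLeft F c'.e)
  let A : Subalgebra F (End F (K ⊗[F] K')) := Subalgebra.centralizer F {I', J'}
  have hσx : ∀ k, c.σ (x * k) = ζ • (x * c.σ k) := fun k => by
    rw [map_mul, c.hσ, smul_mul_assoc]
  have hτy : ∀ k, c'.σ (c'.e * k) = ζ • (c'.e * c'.σ k) := fun k => by
    rw [map_mul, hτ, smul_mul_assoc]
  have hI : I ∈ A := by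
    rintro g (rfl | rfl) <;> refine TensorProduct.ext' fun k l => ?_ <;> simp [I, I', J']
  have hJ : J ∈ A := by
    rintro g (rfl | rfl) <;> refine TensorProduct.ext' fun k l => ?_
    · simp [J, I', hσx, hτy, TensorProduct.smul_tmul]
    · simp [J, J']
  have hE : ∀ (T : End F (K ⊗[F] K')) (l : K'), (∀ k, T (k ⊗ₜ l) = (x * k) ⊗ₜ l) → ∀ r : ℕ,
      ((T - algebraMap F _ ε) ^ r) (1 ⊗ₜ l) = (c.e ^ r) ⊗ₜ l := by
    intro T l hT r
    induction r with
    | zero => simp
    | succ r ih =>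
      rw [pow_succ', End.mul_apply, ih, LinearMap.sub_apply, hT, hx, add_mul, add_tmul,
        Module.algebraMap_end_apply, ← Algebra.smul_def, smul_tmul', add_sub_cancel_right,
        pow_succ']
  let B := c.bas.tensorProduct c'.bas
  have hB : ∀ k, B k = (c.e ^ (k.1 : ℕ)) ⊗ₜ (c'.e ^ (k.2 : ℕ)) := fun k => by
    rw [Basis.tensorProduct_apply', c.hbas, c'.hbas]
  let ev : A →ₗ[F] K ⊗[F] K' := (LinearMap.applyₗ (1 ⊗ₜ 1)).comp A.val.toLinearMap
  have hev : Function.Injective ev := by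
    refine (injective_iff_map_eq_zero _).2 fun T hT => Subtype.ext (B.ext fun k => ?_)
    have h1 : Commute T.1 (J' ^ (k.2 : ℕ) * (I' - algebraMap F _ ε) ^ (k.1 : ℕ)) :=
      (Commute.pow_right (T.2 J' (by simp)).symm _).mul_right
        ((Commute.sub_right (T.2 I' (by simp)).symm (Algebra.commutes _ _).symm).pow_right _)
    have h2 : (J' ^ (k.2 : ℕ) * (I' - algebraMap F _ ε) ^ (k.1 : ℕ)) (1 ⊗ₜ 1) = B k := by
      rw [End.mul_apply, hE I' 1 (fun k => by simp [I']), hB]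
      simp [J']
    have h3 : T.1 (1 ⊗ₜ 1) = 0 := hT
    rw [← h2, ← End.mul_apply, h1.eq, End.mul_apply, h3, map_zero]
    rfl
  let E₀ : A := ⟨I, hI⟩ - algebraMap F A ε
  let J₀ : A := ⟨J, hJ⟩
  let f : Fin p × Fin p → A := fun k => E₀ ^ (k.1 : ℕ) * J₀ ^ (k.2 : ℕ)
  have hJp : ∀ s : ℕ, (J ^ s) (1 ⊗ₜ 1) = 1 ⊗ₜ (c'.e ^ s) := by
    intro s
    induction s with
    | zero => simp
    | succ s ih => rw [pow_succ', End.mul_apply, ih]; simp [J, pow_succ']
  have hf : ∀ k, ev (f k) = B k := fun k => by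
    change ((I - algebraMap F _ ε) ^ (k.1 : ℕ) * J ^ (k.2 : ℕ)) (1 ⊗ₜ 1) = _
    rw [End.mul_apply, hJp, hE I _ (fun k => by simp [I]), hB]
  have hli : LinearIndependent F f :=
    LinearIndependent.of_comp ev (by rw [show ev ∘ f = B from funext hf]; exact B.linearIndependent)
  have hsp : ⊤ ≤ Submodule.span F (Set.range f) := by
    intro T _
    have : ev T ∈ (Submodule.span F (Set.range f)).map ev := by
      rw [Submodule.map_span, ← Set.range_comp, show ev ∘ f = B from funext hf, B.span_eq]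
      trivial
    obtain ⟨T', h, e⟩ := this
    rwa [← hev e]
  have hE₀ : E₀ + algebraMap F A ε = ⟨I, hI⟩ :=
    sub_add_cancel (⟨I, hI⟩ : A) (algebraMap F A ε)
  refine ⟨A, ⟨⟨E₀, J₀, ?_, ?_, ?_, Basis.mk hli hsp, fun k => by rw [Basis.mk_apply]⟩⟩⟩
  · rw [hE₀]
    refine Subtype.ext (TensorProduct.ext' fun k l => ?_)
    change (I ^ p) (k ⊗ₜ l) = a • (k ⊗ₜ l)
    simp only [I, TensorProduct.map_pow, one_pow, LinearMap.pow_mulLeft, map_tmul,
      LinearMap.mulLeft_apply, End.one_apply, smul_tmul']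
    rw [hx, c.hpow, Algebra.smul_def]
  · refine Subtype.ext (TensorProduct.ext' fun k l => ?_)
    change (J ^ p) (k ⊗ₜ l) = b • (k ⊗ₜ l)
    have : c.σ.toLinearMap ^ p = 1 := by
      rw [← AlgHom.toEnd_apply, ← map_pow, c.hσp, map_one]
    simp only [J, TensorProduct.map_pow, this, LinearMap.pow_mulLeft, map_tmul,
      LinearMap.mulLeft_apply, End.one_apply, hy, ← Algebra.smul_def, tmul_smul]
  · rw [hE₀]
    refine Subtype.ext (TensorProduct.ext' fun k l => ?_)
    change J (I (k ⊗ₜ l)) = ζ • I (J (k ⊗ₜ l))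
    simp [I, J, hσx, smul_tmul']

theorem exists_sym {p : ℕ} (hp : p ≠ 0) {ζ : F} (hζ : ζ ^ p = 1) (ε a b : F) :
    ∃ A : AlgCat.{u} F, Nonempty (Sym p ζ ε a b A) := by
  obtain ⟨c⟩ := exists_cyc hp hζ ε a
  obtain ⟨c'⟩ := exists_cyc hp hζ 0 b
  obtain ⟨A, h⟩ := c.exists_sym c'
  exact ⟨AlgCat.of F A, h⟩

end Pool.Agent.Lib.MP_e8e643_al
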