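import Mathlib

/-! Valuations given by a basis whose weights lie in distinct classes. -/

namespace Pool.Agent.Lib.MP_e8e643_al

open Module

variable {F : Type*} [Field F] {Γ : Type*} [LinearOrderedCommGroupWithZero Γ]

section nrm

variable (v : Valuation F Γ) {A : Type*} [AddCommGroup A] [Module F A] {ι : Type*}
  (b : Basis ι F A) (g : ι → Γ)

/-- the largest weighted value of a coordinate -/
noncomputable def nrm (x : A) : Γ := (b.repr x).support.sup fun i => v (b.repr x i) * g i

/-- the weights are nonzero and lie in distinct classes modulo the values of `v` -/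
def Dist : Prop :=
  (∀ i, g i ≠ 0) ∧ ∀ i j c d, c ≠ 0 → d ≠ 0 → v c * g i = v d * g j → i = j

theorem le_nrm (x : A) (i : ι) : v (b.repr x i) * g i ≤ nrm v b g x := by
  by_cases h : b.repr x i = 0
  · simp [h]
  · exact Finset.le_sup (f := fun i => v (b.repr x i) * g i) (Finsupp.mem_support_iff.2 h)

theorem nrm_le {x : A} {γ : Γ} (h : ∀ i, v (b.repr x i) * g i ≤ γ) : nrm v b g x ≤ γ :=
  Finset.sup_le fun i _ => h i

theorem nrm_zero : nrm v b g 0 = 0 := le_antisymm (nrm_le v b g fun i => by simp) zero_le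

theorem exists_nrm {x : A} (hx : x ≠ 0) :
    ∃ i, b.repr x i ≠ 0 ∧ nrm v b g x = v (b.repr x i) * g i := by
  have hne : (b.repr x).support.Nonempty := by
    rw [Finsupp.support_nonempty_iff]
    simpa using hx
  obtain ⟨i, hi, h⟩ := Finset.exists_mem_eq_sup _ hne fun i => v (b.repr x i) * g i
  exact ⟨i, Finsupp.mem_support_iff.1 hi, h⟩

theorem nrm_add (x y : A) : nrm v b g (x + y) ≤ max (nrm v b g x) (nrm v b g y) := by
  refine nrm_le v b g fun i => ?_
  rw [map_add, Finsupp.add_apply]
  rcases le_max_iff.1 (v.map_add (b.repr x i) (b.repr y i)) with h | h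
  · exact (mul_le_mul_left h _).trans ((le_nrm v b g x i).trans (le_max_left _ _))
  · exact (mul_le_mul_left h _).trans ((le_nrm v b g y i).trans (le_max_right _ _))

theorem nrm_smul (c : F) (x : A) : nrm v b g (c • x) = v c * nrm v b g x := by
  refine le_antisymm (nrm_le v b g fun i => ?_) ?_
  · rw [map_smul, Finsupp.smul_apply, smul_eq_mul, map_mul, mul_assoc]
    exact mul_le_mul_right (le_nrm v b g x i) _
  · by_cases hx : x = 0
    · simp [hx, nrm_zero]
    · obtain ⟨i, -, h⟩ := exists_nrm v b g hx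
      have := le_nrm v b g (c • x) i
      rwa [map_smul, Finsupp.smul_apply, smul_eq_mul, map_mul, mul_assoc, ← h] at this

theorem nrm_basis (i : ι) : nrm v b g (b i) = g i := by
  classical
  refine le_antisymm (nrm_le v b g fun j => ?_) ?_
  · rw [b.repr_self, Finsupp.single_apply]
    split_ifs with h
    · simp [h]
    · simp
  · simpa using le_nrm v b g (b i) i

theorem nrm_add_of_lt {x y : A} (h : nrm v b g y < nrm v b g x) :
    nrm v b g (x + y) = nrm v b g x := by
  refine le_antisymm ((nrm_add v b g x y).trans (max_le le_rfl h.le)) ?_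
  have h1 := nrm_add v b g (x + y) ((-1 : F) • y)
  rw [nrm_smul, Valuation.map_neg, map_one, one_mul, neg_one_smul, add_neg_cancel_right] at h1
  exact (le_max_iff.1 h1).resolve_right (not_le.2 h)

theorem nrm_sum_lt {κ : Type*} (s : Finset κ) (f : κ → A) {γ : Γ} (hγ : γ ≠ 0)
    (h : ∀ i ∈ s, nrm v b g (f i) < γ) : nrm v b g (∑ i ∈ s, f i) < γ := by
  classical
  induction s using Finset.induction_on with
  | empty => simpa [nrm_zero] using zero_lt_iff.2 hγ
  | insert a s ha ih =>
    rw [Finset.sum_insert ha]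
    exact (nrm_add v b g _ _).trans_lt (max_lt (h a (Finset.mem_insert_self _ _))
      (ih fun i hi => h i (Finset.mem_insert_of_mem hi)))

variable {v g}

theorem Dist.nrm_ne (hd : Dist v g) {x : A} (hx : x ≠ 0) : nrm v b g x ≠ 0 := by
  obtain ⟨i, hi, h⟩ := exists_nrm v b g hx
  rw [h]
  exact mul_ne_zero ((Valuation.ne_zero_iff v).2 hi) (hd.1 i)

theorem Dist.lt (hd : Dist v g) {x : A} {i j : ι} (hi : b.repr x i ≠ 0)
    (h : nrm v b g x = v (b.repr x i) * g i) (hj : j ≠ i) :
    v (b.repr x j) * g j < nrm v b g x := by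
  refine lt_of_le_of_ne (le_nrm v b g x j) fun e => ?_
  by_cases h0 : b.repr x j = 0
  · rw [h0, map_zero, zero_mul, h] at e
    exact mul_ne_zero ((Valuation.ne_zero_iff v).2 hi) (hd.1 i) e.symm
  · exact hj (hd.2 j i _ _ h0 hi (e.trans h))

/-- an operator that scales the weights of the basis vectors scales all weights -/
theorem Dist.op (hd : Dist v g) (T : A →ₗ[F] A) {τ : Γ} (hτ : τ ≠ 0)
    (hT : ∀ i, nrm v b g (T (b i)) = τ * g i) (x : A) :
    nrm v b g (T x) = τ * nrm v b g x := by
  classical
  by_cases hx : x = 0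
  · simp [hx, nrm_zero]
  obtain ⟨i, hi, h⟩ := exists_nrm v b g hx
  have e : T x = b.repr x i • T (b i) +
      ∑ j ∈ (b.repr x).support.erase i, b.repr x j • T (b j) := by
    rw [Finset.add_sum_erase _ (fun j => b.repr x j • T (b j)) (Finsupp.mem_support_iff.2 hi)]
    conv_lhs => rw [← b.linearCombination_repr x, Finsupp.linearCombination_apply, Finsupp.sum,
      map_sum]
    simp only [map_smul]
  have e1 : nrm v b g (b.repr x i • T (b i)) = τ * nrm v b g x := by
    rw [nrm_smul, hT, h, mul_left_comm]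
  rw [e, nrm_add_of_lt, e1]
  rw [e1]
  refine nrm_sum_lt v b g _ _ (mul_ne_zero hτ (hd.nrm_ne b hx)) fun j hj => ?_
  rw [nrm_smul, hT, mul_left_comm]
  exact mul_lt_mul_of_pos_left (hd.lt b hi h (Finset.ne_of_mem_erase hj)) (zero_lt_iff.2 hτ)

end nrm

section alg

variable {v : Valuation F Γ} {A : Type*} [Ring A] [Algebra F A] {ι : Type*}
  (b : Basis ι F A) {g : ι → Γ}

/-- the valuation attached to a multiplicative weighted basis -/
noncomputable def Dist.val (hd : Dist v g) (h1 : nrm v b g 1 = 1)
    (hm : ∀ i y, nrm v b g (b i * y) = g i * nrm v b g y) : Valuation A Γ where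
  toFun := nrm v b g
  map_zero' := nrm_zero v b g
  map_one' := h1
  map_mul' x y := by
    by_cases hy : y = 0
    · simp [hy, nrm_zero]
    · rw [mul_comm (nrm v b g x)]
      exact hd.op b (LinearMap.mulRight F y) (hd.nrm_ne b hy)
        (fun i => by rw [LinearMap.mulRight_apply, hm, mul_comm]) x
  map_add_le_max' := nrm_add v b g

end alg

end Pool.Agent.Lib.MP_e8e643_al
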